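import Pool.Agent.V11232.ET.Def

namespace Pool.Agent.V11232.ET

variable {T : Type}

/-- One step with table `h`, also for the empty word. -/
def StepH (G : ET0L T) (h : G.H) (u v : List (G.N ⊕ T)) : Prop :=
  ∃ ys : List (List (G.N ⊕ T)), List.Forall₂ (fun X y => (X, y) ∈ G.tab h) u ys ∧ v = ys.flatten

/-- Derivations along a list of tables. -/
def Der (G : ET0L T) : List G.H → List (G.N ⊕ T) → List (G.N ⊕ T) → Prop
  | [], u, v => u = v
  | h :: τ, u, v => ∃ x, StepH G h u x ∧ Der G τ x v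

theorem stepH_append {G : ET0L T} {h : G.H} {u1 u2 v1 v2 : List (G.N ⊕ T)}
    (h1 : StepH G h u1 v1) (h2 : StepH G h u2 v2) : StepH G h (u1 ++ u2) (v1 ++ v2) := by
  obtain ⟨y1, a1, b1⟩ := h1
  obtain ⟨y2, a2, b2⟩ := h2
  exact ⟨y1 ++ y2, List.rel_append a1 a2, by rw [b1, b2]; simp⟩

theorem stepH_split {G : ET0L T} {h : G.H} {u1 u2 v : List (G.N ⊕ T)}
    (hs : StepH G h (u1 ++ u2) v) : ∃ v1 v2, v = v1 ++ v2 ∧ StepH G h u1 v1 ∧ StepH G h u2 v2 := by
  induction u1 generalizing v with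
  | nil => exact ⟨[], v, rfl, ⟨[], List.Forall₂.nil, rfl⟩, hs⟩
  | cons X u1 ih =>
    obtain ⟨y, a, b⟩ := hs
    rw [List.cons_append] at a
    cases a with
    | cons hX a =>
      rename_i z zs
      obtain ⟨v1, v2, e, ⟨y1, s1, t1⟩, s2⟩ := ih (v := zs.flatten) ⟨zs, a, rfl⟩
      refine ⟨z ++ v1, v2, by rw [b]; simp [e], ⟨z :: y1, List.Forall₂.cons hX s1, ?_⟩, s2⟩
      rw [t1]; simp

theorem der_nil {G : ET0L T} {τ : List G.H} {v : List (G.N ⊕ T)} (h : Der G τ [] v) : v = [] := by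
  induction τ with
  | nil => exact h.symm
  | cons a τ ih =>
    obtain ⟨x, ⟨y, hy, hx⟩, h⟩ := h
    cases hy
    rw [hx] at h
    exact ih h

theorem der_append {G : ET0L T} {τ : List G.H} {u1 u2 v1 v2 : List (G.N ⊕ T)}
    (h1 : Der G τ u1 v1) (h2 : Der G τ u2 v2) : Der G τ (u1 ++ u2) (v1 ++ v2) := by
  induction τ generalizing u1 u2 with
  | nil => exact by rw [show u1 = v1 from h1, show u2 = v2 from h2]; rfl
  | cons a τ ih =>
    obtain ⟨x1, s1, d1⟩ := h1
    obtain ⟨x2, s2, d2⟩ := h2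
    exact ⟨x1 ++ x2, stepH_append s1 s2, ih d1 d2⟩

theorem der_split {G : ET0L T} {τ : List G.H} {u1 u2 v : List (G.N ⊕ T)}
    (h : Der G τ (u1 ++ u2) v) : ∃ v1 v2, v = v1 ++ v2 ∧ Der G τ u1 v1 ∧ Der G τ u2 v2 := by
  induction τ generalizing u1 u2 with
  | nil => exact ⟨u1, u2, h.symm, rfl, rfl⟩
  | cons a τ ih =>
    obtain ⟨x, s, d⟩ := h
    obtain ⟨x1, x2, rfl, s1, s2⟩ := stepH_split s
    obtain ⟨v1, v2, e, d1, d2⟩ := ih d
    exact ⟨v1, v2, e, ⟨x1, s1, d1⟩, ⟨x2, s2, d2⟩⟩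

theorem der_trans {G : ET0L T} {τ σ : List G.H} {u v w : List (G.N ⊕ T)}
    (h1 : Der G τ u v) (h2 : Der G σ v w) : Der G (τ ++ σ) u w := by
  induction τ generalizing u with
  | nil => rw [show u = v from h1]; exact h2
  | cons a τ ih =>
    obtain ⟨x, s, d⟩ := h1
    exact ⟨x, s, ih d⟩

theorem der_cut {G : ET0L T} {τ σ : List G.H} {u w : List (G.N ⊕ T)}
    (h : Der G (τ ++ σ) u w) : ∃ v, Der G τ u v ∧ Der G σ v w := by
  induction τ generalizing u with
  | nil => exact ⟨u, rfl, h⟩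
  | cons a τ ih =>
    obtain ⟨x, s, d⟩ := h
    obtain ⟨v, d1, d2⟩ := ih d
    exact ⟨v, ⟨x, s, d1⟩, d2⟩

theorem lang_of_der {G : ET0L T} {τ : List G.H} {u v : List (G.N ⊕ T)} (h : Der G τ u v)
    (hv : v ≠ []) : Relation.ReflTransGen G.Step u v := by
  induction τ generalizing u with
  | nil => rw [show u = v from h]
  | cons a τ ih =>
    obtain ⟨x, s, d⟩ := h
    have hu : u ≠ [] := by
      rintro rfl
      apply hv
      exact der_nil (τ := a :: τ) ⟨x, s, d⟩
    refine Relation.ReflTransGen.head ⟨hu, a, s⟩ (ih d)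

theorem der_of_lang {G : ET0L T} {u v : List (G.N ⊕ T)} (h : Relation.ReflTransGen G.Step u v) :
    ∃ τ, Der G τ u v := by
  induction h using Relation.ReflTransGen.head_induction_on with
  | refl => exact ⟨[], rfl⟩
  | head hs _ ih =>
    obtain ⟨τ, hτ⟩ := ih
    obtain ⟨_, h, hs⟩ := hs
    exact ⟨h :: τ, _, hs, hτ⟩

/-- A bound for the lengths of right-hand sides, at least one. -/
theorem exists_bound (G : ET0L T) [Finite T] : ∃ c : ℕ, 1 ≤ c ∧ ∀ h X y, (X, y) ∈ G.tab h →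
    y.length ≤ c := by
  have := G.finH
  have hfin : (⋃ h, G.tab h).Finite := Set.finite_iUnion fun h => G.finTab h
  obtain ⟨b, hb⟩ := (hfin.image (fun p => p.2.length)).bddAbove
  refine ⟨b + 1, by omega, fun h X y hX => ?_⟩
  have : y.length ≤ b := hb ⟨(X, y), Set.mem_iUnion.mpr ⟨h, hX⟩, rfl⟩
  omega

/-- Single symbols. -/
theorem stepH_single {G : ET0L T} {h : G.H} {X : G.N ⊕ T} {v : List (G.N ⊕ T)} :
    StepH G h [X] v ↔ (X, v) ∈ G.tab h := by
  constructor
  · rintro ⟨ys, hy, rfl⟩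
    cases hy with
    | cons h1 h2 =>
      cases h2
      simpa using h1
  · intro hX
    exact ⟨[v], List.Forall₂.cons hX List.Forall₂.nil, by simp⟩

/-- The decomposition of a derivation into the contributions of the single symbols. -/
theorem der_parts {G : ET0L T} {τ : List G.H} {u v : List (G.N ⊕ T)} (h : Der G τ u v) :
    ∃ ps : List ((G.N ⊕ T) × List (G.N ⊕ T)), ps.map Prod.fst = u ∧
      (ps.map Prod.snd).flatten = v ∧ ∀ p ∈ ps, Der G τ [p.1] p.2 := by
  induction u generalizing v with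
  | nil =>
    have := der_nil h
    exact ⟨[], rfl, by rw [this]; rfl, by simp⟩
  | cons X u ih =>
    have h' : Der G τ ([X] ++ u) v := h
    obtain ⟨v1, v2, e, d1, d2⟩ := der_split h'
    obtain ⟨ps, e1, e2, e3⟩ := ih d2
    refine ⟨(X, v1) :: ps, by simp [e1], by simp [e2, e], ?_⟩
    intro p hp
    rcases List.mem_cons.mp hp with rfl | hp
    · exact d1
    · exact e3 p hp

theorem der_of_parts {G : ET0L T} {τ : List G.H} (ps : List ((G.N ⊕ T) × List (G.N ⊕ T)))
    (h : ∀ p ∈ ps, Der G τ [p.1] p.2) : Der G τ (ps.map Prod.fst) (ps.map Prod.snd).flatten := by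
  induction ps with
  | nil =>
    clear h
    induction τ with
    | nil => rfl
    | cons a τ ih => exact ⟨[], ⟨[], List.Forall₂.nil, rfl⟩, ih⟩
  | cons p ps ih =>
    have h1 := der_append (h p (by simp)) (ih fun q hq => h q (by simp [hq]))
    simpa using h1

end Pool.Agent.V11232.ET
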