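import Pool.Agent.V11232.ET.PStep
import Pool.Agent.V11232.ET.Basic

/-!
Every ET0L language is generated by a left permitting E0L grammar.
-/

namespace Pool.Agent.V11232.ET

variable {T : Type}

/-- Control symbols: start, the table for the next step, end. -/
inductive Ct (H : Type) : Type
  | C | D (h : H) | F

open Ct

theorem ct_finite (H : Type) [Finite H] : Finite (Ct H) := by
  have : Function.Injective (fun c : Ct H => match c with
      | C => (none : Option (Option H))
      | D h => some (some h)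
      | F => some none) := by
    intro a b h
    cases a <;> cases b <;> simp at h ⊢
    exact h
  exact Finite.of_injective _ this

/-- Old symbols. -/
def em (G : ET0L T) : G.N ⊕ T → (G.N ⊕ Ct G.H) ⊕ T
  | Sum.inl A => Sum.inl (Sum.inl A)
  | Sum.inr a => Sum.inr a

/-- Control symbols. -/
def ct (G : ET0L T) (c : Ct G.H) : (G.N ⊕ Ct G.H) ⊕ T := Sum.inl (Sum.inr c)

theorem em_inj (G : ET0L T) : Function.Injective (em G) := by
  intro a b h
  cases a <;> cases b <;> simp [em] at h ⊢ <;> exact h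

theorem em_ne_ct (G : ET0L T) (X : G.N ⊕ T) (c : Ct G.H) : em G X ≠ ct G c := by
  cases X <;> simp [em, ct]

/-- The rules of the left permitting grammar. -/
def IP (G : ET0L T) : Set (((G.N ⊕ Ct G.H) ⊕ T) × List ((G.N ⊕ Ct G.H) ⊕ T) ×
    Set (G.N ⊕ Ct G.H) × Set (G.N ⊕ Ct G.H)) :=
  {q | (∃ c c', c ≠ F ∧ c' ≠ C ∧ q = (ct G c, [ct G c'], ∅, ∅)) ∨ q = (ct G F, [], ∅, ∅) ∨
    (∃ X c, (c = C ∨ c = F) ∧ q = (em G X, [em G X], {Sum.inr c}, ∅)) ∨
    ∃ h X y, (X, y) ∈ G.tab h ∧ q = (em G X, y.map (em G), {Sum.inr (D h)}, ∅)}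

theorem IP_finite [Finite T] (G : ET0L T) : (IP G).Finite := by
  have h1 := G.finN
  have h2 := G.finH
  have h3 := ct_finite G.H
  have e : IP G ⊆ (Set.range fun p : Ct G.H × Ct G.H =>
      ((ct G p.1, [ct G p.2], ∅, ∅) : ((G.N ⊕ Ct G.H) ⊕ T) × List ((G.N ⊕ Ct G.H) ⊕ T) ×
        Set (G.N ⊕ Ct G.H) × Set (G.N ⊕ Ct G.H))) ∪ {(ct G F, [], ∅, ∅)} ∪
      (Set.range fun p : (G.N ⊕ T) × Ct G.H => (em G p.1, [em G p.1], {Sum.inr p.2}, ∅)) ∪
      ⋃ h, (fun p : (G.N ⊕ T) × List (G.N ⊕ T) =>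
        (em G p.1, p.2.map (em G), ({Sum.inr (D h)} : Set (G.N ⊕ Ct G.H)),
          (∅ : Set (G.N ⊕ Ct G.H)))) '' G.tab h := by
    rintro q (⟨c, c', -, -, rfl⟩ | rfl | ⟨X, c, -, rfl⟩ | ⟨h, X, y, hX, rfl⟩)
    · exact Or.inl (Or.inl (Or.inl ⟨(c, c'), rfl⟩))
    · exact Or.inl (Or.inl (Or.inr rfl))
    · exact Or.inl (Or.inr ⟨(X, c), rfl⟩)
    · exact Or.inr (Set.mem_iUnion.mpr ⟨h, (X, y), hX, rfl⟩)
  refine Set.Finite.subset ?_ e
  refine (((Set.finite_range _).union (Set.finite_singleton _)).union (Set.finite_range _)).union ?_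
  exact Set.finite_iUnion fun h => (G.finTab h).image _

/-- The left permitting grammar. -/
def IG [Finite T] (G : ET0L T) : LRC T where
  N := G.N ⊕ Ct G.H
  finN := by
    have h1 := G.finN
    have h2 := G.finH
    have h3 := ct_finite G.H
    infer_instance
  P := IP G
  finP := IP_finite G
  ax := ct G C :: G.ax.map (em G)
  ax_ne := by simp

theorem IG_permitting [Finite T] (G : ET0L T) : (IG G).Permitting := by
  intro X y U W h
  have h' : (X, y, U, W) ∈ IP G := h
  rcases h' with ⟨c, c', -, -, h⟩ | h | ⟨X', c, -, h⟩ | ⟨h0, X', y', -, h⟩ <;>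
    exact congrArg (fun t => t.2.2.2) h

/-- Applicability. -/
def AI [Finite T] (G : ET0L T) (pre : List ((G.N ⊕ Ct G.H) ⊕ T)) (X : (G.N ⊕ Ct G.H) ⊕ T)
    (y : List ((G.N ⊕ Ct G.H) ⊕ T)) : Prop := App (IG G) pre X y

/-- What an old symbol may become. -/
def OldStep (G : ET0L T) (c : Ct G.H) (X : G.N ⊕ T) (y : List (G.N ⊕ T)) : Prop :=
  match c with
  | C => y = [X]
  | F => y = [X]
  | D h => (X, y) ∈ G.tab h

theorem AI_ct [Finite T] (G : ET0L T) (pre : List ((G.N ⊕ Ct G.H) ⊕ T)) (c : Ct G.H)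
    (y : List ((G.N ⊕ Ct G.H) ⊕ T)) : AI G pre (ct G c) y ↔
    (c ≠ F ∧ ∃ c', c' ≠ C ∧ y = [ct G c']) ∨ (c = F ∧ y = []) := by
  constructor
  · rintro ⟨U, W, h, -, -⟩
    have h' : (ct G c, y, U, W) ∈ IP G := h
    rcases h' with ⟨c1, c', h1, h2, h⟩ | h | ⟨X', c', -, h⟩ | ⟨h0, X', y', -, h⟩
    · have e1 : ct G c = ct G c1 := congrArg (fun t => t.1) h
      have e2 : c = c1 := by simpa [ct] using e1
      exact Or.inl ⟨by rw [e2]; exact h1, c', h2, congrArg (fun t => t.2.1) h⟩
    · have e1 : ct G c = ct G F := congrArg (fun t => t.1) h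
      exact Or.inr ⟨by simpa [ct] using e1, congrArg (fun t => t.2.1) h⟩
    · exact absurd (congrArg (fun t => t.1) h).symm (em_ne_ct G _ _)
    · exact absurd (congrArg (fun t => t.1) h).symm (em_ne_ct G _ _)
  · rintro (⟨h1, c', h2, rfl⟩ | ⟨rfl, rfl⟩)
    · exact ⟨∅, ∅, Or.inl ⟨c, c', h1, h2, rfl⟩, fun B hB => absurd hB (Set.notMem_empty B),
        fun B hB => absurd hB (Set.notMem_empty B)⟩
    · exact ⟨∅, ∅, Or.inr (Or.inl rfl), fun B hB => absurd hB (Set.notMem_empty B),
        fun B hB => absurd hB (Set.notMem_empty B)⟩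

theorem AI_em [Finite T] (G : ET0L T) (c : Ct G.H) (pre : List (G.N ⊕ T)) (X : G.N ⊕ T)
    (y : List ((G.N ⊕ Ct G.H) ⊕ T)) : AI G (ct G c :: pre.map (em G)) (em G X) y ↔
    ∃ y0, OldStep G c X y0 ∧ y = y0.map (em G) := by
  have hm : ∀ c', (Sum.inl (Sum.inr c') : (G.N ⊕ Ct G.H) ⊕ T) ∈ ct G c :: pre.map (em G) →
      c' = c := by
    intro c' h
    rcases List.mem_cons.mp h with h | h
    · simpa [ct] using h
    · obtain ⟨Z, -, hZ⟩ := List.mem_map.mp h
      exact absurd hZ (em_ne_ct G Z c')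
  constructor
  · rintro ⟨U, W, h, hU, -⟩
    have h' : (em G X, y, U, W) ∈ IP G := h
    rcases h' with ⟨c1, c', h1, h2, h⟩ | h | ⟨X', c', h1, h⟩ | ⟨h0, X', y', h1, h⟩
    · exact absurd (congrArg (fun t => t.1) h) (em_ne_ct G _ _)
    · exact absurd (congrArg (fun t => t.1) h) (em_ne_ct G _ _)
    · have e1 : X = X' := em_inj G (congrArg (fun t => t.1) h)
      have e2 : U = {Sum.inr c'} := congrArg (fun t => t.2.2.1) h
      have e3 : y = [em G X'] := congrArg (fun t => t.2.1) h
      have e4 := hm c' (hU (Sum.inr c') (by rw [e2]; rfl))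
      subst e4 e1
      refine ⟨[X], ?_, by rw [e3]; rfl⟩
      rcases h1 with rfl | rfl <;> rfl
    · have e1 : X = X' := em_inj G (congrArg (fun t => t.1) h)
      have e2 : U = {Sum.inr (D h0)} := congrArg (fun t => t.2.2.1) h
      have e3 : y = y'.map (em G) := congrArg (fun t => t.2.1) h
      have e4 := hm (D h0) (hU (Sum.inr (D h0)) (by rw [e2]; rfl))
      subst e4 e1
      exact ⟨y', h1, e3⟩
  · rintro ⟨y0, h1, rfl⟩
    refine ⟨{Sum.inr c}, ∅, ?_, ?_, fun B hB => absurd hB (Set.notMem_empty B)⟩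
    · cases c with
      | C =>
        have : y0 = [X] := h1
        subst this
        exact Or.inr (Or.inr (Or.inl ⟨X, C, Or.inl rfl, rfl⟩))
      | F =>
        have : y0 = [X] := h1
        subst this
        exact Or.inr (Or.inr (Or.inl ⟨X, F, Or.inr rfl, rfl⟩))
      | D h => exact Or.inr (Or.inr (Or.inr ⟨h, X, y0, h1, rfl⟩))
    · intro B hB
      have : B = Sum.inr c := hB
      rw [this]; exact List.mem_cons_self

/-- Parallel rewriting of the old symbols. -/
theorem PS_em [Finite T] (G : ET0L T) (c : Ct G.H) : ∀ (u pre : List (G.N ⊕ T))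
    (v : List ((G.N ⊕ Ct G.H) ⊕ T)), PS (IG G) (ct G c :: pre.map (em G)) (u.map (em G)) v ↔
    ∃ ys : List (List (G.N ⊕ T)), List.Forall₂ (OldStep G c) u ys ∧
      v = (ys.flatten).map (em G) := by
  intro u
  induction u with
  | nil =>
    intro pre v
    constructor
    · intro h
      have : v = [] := h
      exact ⟨[], List.Forall₂.nil, by rw [this]; rfl⟩
    · rintro ⟨ys, h1, h2⟩
      cases h1
      exact h2
  | cons X u ih =>
    intro pre v
    constructor
    · rintro ⟨y, v', h1, h2, h3⟩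
      obtain ⟨y0, g1, g2⟩ := (AI_em G c pre X y).mp h1
      have h3' : PS (IG G) (ct G c :: (pre ++ [X]).map (em G)) (u.map (em G)) v' := by
        rw [List.map_append, ← List.cons_append]; exact h3
      obtain ⟨ys, g3, g4⟩ := (ih (pre ++ [X]) v').mp h3'
      refine ⟨y0 :: ys, List.Forall₂.cons g1 g3, ?_⟩
      have e : ((y0 :: ys).flatten).map (em G) = y0.map (em G) ++ (ys.flatten).map (em G) := by
        rw [List.flatten_cons, List.map_append]
      subst g2 g4
      exact h2.trans e.symm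
    · rintro ⟨ys, h1, h2⟩
      cases h1 with
      | cons g1 g3 =>
        rename_i y0 ys
        have e : ((y0 :: ys).flatten).map (em G) = y0.map (em G) ++ (ys.flatten).map (em G) := by
          rw [List.flatten_cons, List.map_append]
        refine ⟨y0.map (em G), (ys.flatten).map (em G), (AI_em G c pre X _).mpr ⟨y0, g1, rfl⟩,
          h2.trans e, ?_⟩
        have := (ih (pre ++ [X]) _).mpr ⟨ys, g3, rfl⟩
        rw [List.map_append, ← List.cons_append] at this
        exact this

theorem old_refl (G : ET0L T) (c : Ct G.H) (hc : c = C ∨ c = F) (u : List (G.N ⊕ T))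
    (ys : List (List (G.N ⊕ T))) (h : List.Forall₂ (OldStep G c) u ys) : ys.flatten = u := by
  induction h with
  | nil => rfl
  | cons h1 h2 ih =>
    rename_i X y u ys
    have : y = [X] := by
      rcases hc with rfl | rfl
      · exact h1
      · exact h1
    rw [List.flatten_cons, ih, this]; rfl

theorem old_refl' (G : ET0L T) (c : Ct G.H) (hc : c = C ∨ c = F) (u : List (G.N ⊕ T)) :
    List.Forall₂ (OldStep G c) u (u.map fun X => [X]) := by
  induction u with
  | nil => exact List.Forall₂.nil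
  | cons X u ih =>
    refine List.Forall₂.cons ?_ ih
    rcases hc with rfl | rfl <;> rfl

/-- Reachability in the ET0L grammar. -/
def RG (G : ET0L T) (u : List (G.N ⊕ T)) : Prop := Relation.ReflTransGen G.Step G.ax u

/-- The invariant. -/
def InvI (G : ET0L T) (v : List ((G.N ⊕ Ct G.H) ⊕ T)) : Prop :=
  ∃ u, RG G u ∧ (v = u.map (em G) ∨ ∃ c, v = ct G c :: u.map (em G))

theorem no_step [Finite T] (G : ET0L T) (u : List (G.N ⊕ T)) (v : List ((G.N ⊕ Ct G.H) ⊕ T))
    (hu : u ≠ []) : ¬ PS (IG G) [] (u.map (em G)) v := by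
  intro h
  cases u with
  | nil => exact hu rfl
  | cons X u =>
    obtain ⟨y, v', ⟨U, W, h1, hU, -⟩, -, -⟩ := h
    have h' : (em G X, y, U, W) ∈ IP G := h1
    rcases h' with ⟨c1, c', -, -, h⟩ | h | ⟨X', c', -, h⟩ | ⟨h0, X', y', -, h⟩
    · exact absurd (congrArg (fun t => t.1) h) (em_ne_ct G _ _)
    · exact absurd (congrArg (fun t => t.1) h) (em_ne_ct G _ _)
    · have e2 : U = {Sum.inr c'} := congrArg (fun t => t.2.2.1) h
      have := hU (Sum.inr c') (by rw [e2]; rfl)
      simp at this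
    · have e2 : U = {Sum.inr (D h0)} := congrArg (fun t => t.2.2.1) h
      have := hU (Sum.inr (D h0)) (by rw [e2]; rfl)
      simp at this

theorem invI_step [Finite T] (G : ET0L T) {v v' : List ((G.N ⊕ Ct G.H) ⊕ T)} (h : InvI G v)
    (hs : (IG G).Step v v') : InvI G v' := by
  obtain ⟨hne, hP⟩ := (step_iff (IG G) v v').mp hs
  obtain ⟨u, hu, hv | ⟨c, hv⟩⟩ := h
  · rw [hv] at hP hne
    exact absurd hP (no_step G u v' (by rintro rfl; exact hne rfl))
  · rw [hv] at hP
    obtain ⟨y, v1, h1, h2, h3⟩ := hP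
    have h3' : PS (IG G) (ct G c :: ([] : List (G.N ⊕ T)).map (em G)) (u.map (em G)) v1 := h3
    obtain ⟨ys, g1, g2⟩ := (PS_em G c u [] v1).mp h3'
    have h1' : AI G [] (ct G c) y := h1
    rw [AI_ct] at h1'
    -- the new old part is reachable
    have hr : RG G ys.flatten := by
      cases c with
      | C => rw [old_refl G C (Or.inl rfl) u ys g1]; exact hu
      | F => rw [old_refl G F (Or.inr rfl) u ys g1]; exact hu
      | D h =>
        by_cases hu0 : u = []
        · subst hu0
          cases g1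
          exact hu
        · exact hu.tail ⟨hu0, h, ys, g1, rfl⟩
    rcases h1' with ⟨-, c', -, hy⟩ | ⟨-, hy⟩
    · exact ⟨ys.flatten, hr, Or.inr ⟨c', by rw [h2, hy, g2]; rfl⟩⟩
    · exact ⟨ys.flatten, hr, Or.inl (by rw [h2, hy, g2]; rfl)⟩

theorem IG_lang [Finite T] (G : ET0L T) : (IG G).lang = G.lang := by
  ext w
  constructor
  · intro h
    have hinv : ∀ v, Relation.ReflTransGen (IG G).Step (ct G C :: G.ax.map (em G)) v →
        InvI G v := by
      intro v h
      induction h with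
      | refl => exact ⟨G.ax, Relation.ReflTransGen.refl, Or.inr ⟨C, rfl⟩⟩
      | tail _ hs ih => exact invI_step G ih hs
    obtain ⟨u, hu, hv | ⟨c, hv⟩⟩ := hinv _ h
    · have e : (w.map Sum.inr : List ((G.N ⊕ Ct G.H) ⊕ T)) = (w.map Sum.inr).map (em G) := by
        rw [List.map_map]; rfl
      have hv' : (w.map Sum.inr : List (G.N ⊕ T)).map (em G) = u.map (em G) := e.symm.trans hv
      have := List.map_injective_iff.mpr (em_inj G) hv'
      change Relation.ReflTransGen G.Step G.ax (w.map Sum.inr)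
      rw [this]; exact hu
    · exfalso
      cases w with
      | nil => simp at hv
      | cons a w =>
        have := (List.cons.inj hv).1
        simp [ct] at this
  · intro h
    have h' : Relation.ReflTransGen G.Step G.ax (w.map Sum.inr) := h
    have key : ∀ u, Relation.ReflTransGen G.Step G.ax u → ∀ c', c' ≠ C →
        Relation.ReflTransGen (IG G).Step (ct G C :: G.ax.map (em G)) (ct G c' :: u.map (em G)) := by
      intro u hu
      induction hu with
      | refl =>
        intro c' hc'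
        refine Relation.ReflTransGen.single ((step_iff (IG G) _ _).mpr ⟨by simp, ?_⟩)
        refine ⟨[ct G c'], G.ax.map (em G), (AI_ct G [] C _).mpr
          (Or.inl ⟨(by intro h; cases h), c', hc', rfl⟩), rfl, ?_⟩
        have := (PS_em G C G.ax [] (G.ax.map (em G))).mpr
          ⟨G.ax.map fun X => [X], old_refl' G C (Or.inl rfl) _, by
            rw [old_refl G C (Or.inl rfl) _ _ (old_refl' G C (Or.inl rfl) _)]⟩
        exact this
      | tail _ hs ih =>
        intro c' hc'
        rename_i u v _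
        obtain ⟨hu0, h, ys, g1, g2⟩ := hs
        refine (ih (D h) (by intro h; cases h)).tail ((step_iff (IG G) _ _).mpr ⟨by simp, ?_⟩)
        refine ⟨[ct G c'], v.map (em G), (AI_ct G [] (D h) _).mpr
          (Or.inl ⟨(by intro h; cases h), c', hc', rfl⟩), rfl, ?_⟩
        exact (PS_em G (D h) u [] (v.map (em G))).mpr ⟨ys, g1, by rw [g2]⟩
    have h1 := key _ h' F (by intro h; cases h)
    have e : (w.map Sum.inr : List ((G.N ⊕ Ct G.H) ⊕ T)) = (w.map Sum.inr).map (em G) := by
      rw [List.map_map]; rfl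
    have h2 : Relation.ReflTransGen (IG G).Step (ct G C :: G.ax.map (em G))
        ((w.map Sum.inr).map (em G)) := ?_
    · exact Eq.mp (congrArg (fun z => Relation.ReflTransGen (IG G).Step _ z) e.symm) h2
    refine h1.tail ((step_iff (IG G) _ _).mpr ⟨by simp, ?_⟩)
    refine ⟨[], (w.map Sum.inr).map (em G), (AI_ct G [] F _).mpr (Or.inr ⟨rfl, rfl⟩), rfl, ?_⟩
    exact (PS_em G F (w.map Sum.inr) [] _).mpr
      ⟨(w.map Sum.inr).map fun X => [X], old_refl' G F (Or.inr rfl) _,
        (congrArg (List.map (em G))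
          (old_refl G F (Or.inr rfl) _ _ (old_refl' G F (Or.inr rfl) _))).symm⟩

theorem fET0L_subset_fLPE [Finite T] : fET0L T ⊆ fLPE T := by
  rintro L ⟨G, hG⟩
  exact ⟨IG G, IG_permitting G, (IG_lang G).trans hG⟩

end Pool.Agent.V11232.ET
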