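import Mathlib

/-!
ET0L grammars and left random context E0L grammars. Symbols are elements of `N ⊕ T`, where `N` is
the set of nonterminals and `T` the terminal alphabet.
-/

namespace Pool.Agent.V11232.ET

/-- An ET0L grammar with terminal alphabet `T`: finitely many finite tables `tab h`, each with at
least one rule for every symbol, and a nonempty axiom `ax`. -/
structure ET0L (T : Type) where
  N : Type
  H : Type
  finN : Finite N
  finH : Finite H
  neH : Nonempty H
  tab : H → Set ((N ⊕ T) × List (N ⊕ T))
  finTab : ∀ h, (tab h).Finite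
  complete : ∀ h X, ∃ y, (X, y) ∈ tab h
  ax : List (N ⊕ T)
  ax_ne : ax ≠ []

variable {T : Type}

/-- The derivation relation of an ET0L grammar: all symbols of a nonempty word are rewritten by
rules of one table. -/
def ET0L.Step (G : ET0L T) (u v : List (G.N ⊕ T)) : Prop :=
  u ≠ [] ∧ ∃ h, ∃ ys : List (List (G.N ⊕ T)),
    List.Forall₂ (fun X y => (X, y) ∈ G.tab h) u ys ∧ v = ys.flatten

/-- The language of an ET0L grammar. -/
def ET0L.lang (G : ET0L T) : Language T :=
  {w | Relation.ReflTransGen G.Step G.ax (w.map Sum.inr)}

/-- The family of ET0L languages over `T`. -/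
def fET0L (T : Type) : Set (Language T) := {L | ∃ G : ET0L T, G.lang = L}

/-- A left random context E0L grammar with terminal alphabet `T`: rules `(X, y, U, W)` with left
permitting set `U` and left forbidding set `W`. -/
structure LRC (T : Type) where
  N : Type
  finN : Finite N
  P : Set ((N ⊕ T) × List (N ⊕ T) × Set N × Set N)
  finP : P.Finite
  ax : List (N ⊕ T)
  ax_ne : ax ≠ []

/-- The derivation relation of a left random context E0L grammar: the `i`-th symbol is rewritten by
a rule whose permitting symbols all occur, and whose forbidding symbols do not occur, to the left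
of it. -/
def LRC.Step (G : LRC T) (u v : List (G.N ⊕ T)) : Prop :=
  u ≠ [] ∧ ∃ ys : List (List (G.N ⊕ T)), ys.length = u.length ∧
    (∀ (i : ℕ) (X : G.N ⊕ T) (y : List (G.N ⊕ T)), u[i]? = some X → ys[i]? = some y →
      ∃ U W : Set G.N, (X, y, U, W) ∈ G.P ∧ (∀ B ∈ U, Sum.inl B ∈ u.take i) ∧
        (∀ B ∈ W, Sum.inl B ∉ u.take i)) ∧ v = ys.flatten

/-- The language of a left random context E0L grammar. -/
def LRC.lang (G : LRC T) : Language T :=
  {w | Relation.ReflTransGen G.Step G.ax (w.map Sum.inr)}

/-- Left forbidding grammars. -/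
def LRC.Forbidding (G : LRC T) : Prop := ∀ X y U W, (X, y, U, W) ∈ G.P → U = ∅

/-- Left permitting grammars. -/
def LRC.Permitting (G : LRC T) : Prop := ∀ X y U W, (X, y, U, W) ∈ G.P → W = ∅

/-- Propagating grammars. -/
def LRC.Propagating (G : LRC T) : Prop := ∀ X y U W, (X, y, U, W) ∈ G.P → y ≠ []

/-- The family of LF-EP0L languages over `T`. -/
def fLFEP (T : Type) : Set (Language T) :=
  {L | ∃ G : LRC T, G.Forbidding ∧ G.Propagating ∧ G.lang = L}

/-- The family of LF-E0L languages over `T`. -/
def fLFE (T : Type) : Set (Language T) := {L | ∃ G : LRC T, G.Forbidding ∧ G.lang = L}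

/-- The family of LP-E0L languages over `T`. -/
def fLPE (T : Type) : Set (Language T) := {L | ∃ G : LRC T, G.Permitting ∧ G.lang = L}

end Pool.Agent.V11232.ET
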