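import Mathlib

namespace Pool.Agent.V11232.ET

/-- The word `(a b^n)^m`, with `a = 0` and `b = 1`. -/
def WD (n m : ℕ) : List (Fin 2) := (List.replicate m (0 :: List.replicate n 1)).flatten

theorem WD_zero (n : ℕ) : WD n 0 = [] := rfl
theorem WD_succ (n m : ℕ) : WD n (m + 1) = 0 :: (List.replicate n 1 ++ WD n m) := by
  simp [WD, List.replicate_succ]

theorem WD_count (n m : ℕ) : (WD n m).count 0 = m := by
  induction m with
  | zero => rfl
  | succ m ih =>
    rw [WD_succ, List.count_cons_self, List.count_append, ih]
    have : List.count (0 : Fin 2) (List.replicate n 1) = 0 := by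
      rw [List.count_eq_zero]; simp [List.mem_replicate]
    omega

theorem rep01 {n k : ℕ} {u v : List (Fin 2)}
    (h : List.replicate n (1 : Fin 2) ++ 0 :: u = List.replicate k 1 ++ 0 :: v) : n = k := by
  induction n generalizing k with
  | zero =>
    cases k with
    | zero => rfl
    | succ k => simp [List.replicate_succ] at h
  | succ n ih =>
    cases k with
    | zero => simp [List.replicate_succ] at h
    | succ k =>
      simp [List.replicate_succ] at h
      have := ih h
      omega

theorem infix_WD {n m k : ℕ} {p q : List (Fin 2)}
    (h : WD n m = p ++ 0 :: (List.replicate k 1 ++ 0 :: q)) : n = k := by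
  induction m generalizing p with
  | zero => simp [WD_zero] at h
  | succ m ih =>
    rw [WD_succ] at h
    cases p with
    | nil =>
      rw [List.nil_append] at h
      have h1 := (List.cons.inj h).2
      cases m with
      | zero =>
        rw [WD_zero, List.append_nil] at h1
        have : (0 : Fin 2) ∈ List.replicate n (1 : Fin 2) := by rw [h1]; simp
        simp [List.mem_replicate] at this
      | succ m =>
        rw [WD_succ] at h1
        exact rep01 h1
    | cons x p =>
      rw [List.cons_append] at h
      have h1 := (List.cons.inj h).2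
      rcases List.append_eq_append_iff.mp h1 with ⟨a, h2, h3⟩ | ⟨c, h2, h3⟩
      · exact ih h3
      · cases c with
        | nil => exact ih (p := []) (by simpa using h3.symm)
        | cons y c =>
          rw [List.cons_append] at h3
          have h4 := (List.cons.inj h3).1
          have : (0 : Fin 2) ∈ List.replicate n (1 : Fin 2) := by rw [h2, h4]; simp
          simp [List.mem_replicate] at this

/-- The first zero. -/
theorem first_zero {u : List (Fin 2)} (h : 0 ∈ u) :
    ∃ k q, u = List.replicate k 1 ++ 0 :: q := by
  induction u with
  | nil => simp at h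
  | cons x u ih =>
    by_cases hx : x = 0
    · exact ⟨0, u, by rw [hx]; rfl⟩
    · have h2 : 0 ∈ u := by
        rcases List.mem_cons.mp h with h | h
        · exact absurd h.symm hx
        · exact h
      obtain ⟨k, q, hq⟩ := ih h2
      have hx1 : x = 1 := by
        fin_cases x
        · exact absurd rfl hx
        · rfl
      exact ⟨k + 1, q, by rw [hq, hx1, List.replicate_succ]; rfl⟩

theorem two_zeros {u : List (Fin 2)} (h : 2 ≤ u.count 0) :
    ∃ p k q, u = p ++ 0 :: (List.replicate k 1 ++ 0 :: q) := by
  have h0 : 0 ∈ u := List.count_pos_iff.mp (by omega)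
  obtain ⟨k, q, hq⟩ := first_zero h0
  have hc : 1 ≤ q.count 0 := by
    rw [hq, List.count_append, List.count_cons_self] at h
    have : List.count (0 : Fin 2) (List.replicate k 1) = 0 := by
      rw [List.count_eq_zero]; simp [List.mem_replicate]
    omega
  obtain ⟨k', q', hq'⟩ := first_zero (List.count_pos_iff.mp (show 0 < q.count 0 by omega))
  exact ⟨List.replicate k 1, k', q', by rw [hq, hq']⟩

/-- A word of the shape `(ab^n')^m'` with a factor that is a factor of `(ab^n)^m` and contains two
letters `a` has `n' = n`. -/
theorem same_block {n m n' m' : ℕ} {u : List (Fin 2)} (h1 : u <:+: WD n m) (h2 : u <:+: WD n' m')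
    (hc : 2 ≤ u.count 0) : n' = n := by
  obtain ⟨p, k, q, hu⟩ := two_zeros hc
  obtain ⟨s, t, h1⟩ := h1
  obtain ⟨s', t', h2⟩ := h2
  have e1 : n = k := by
    apply infix_WD (m := m) (p := s ++ p) (q := q ++ t)
    rw [← h1, hu]; simp
  have e2 : n' = k := by
    apply infix_WD (m := m') (p := s' ++ p) (q := q ++ t')
    rw [← h2, hu]; simp
  omega

end Pool.Agent.V11232.ET
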