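import Pool.Agent.V11232.ET.Basic
import Pool.Agent.V11232.ET.Words

namespace Pool.Agent.V11232.ET

/-- Bounded well quasi orders: sequences with controlled entries have good pairs early. -/
theorem bounded_wqo {α : Type} {R : α → α → Prop} (hR : WellQuasiOrdered R) (f : ℕ → Set α)
    (hf : ∀ t, (f t).Finite) : ∃ K, ∀ x : ℕ → α, (∀ t ≤ K, x t ∈ f t) →
      ∃ s t, s < t ∧ t ≤ K ∧ R (x s) (x t) := by
  classical
  by_contra hcon
  push Not at hcon
  choose x hx1 hx2 using hcon
  have hne : ∀ t, Nonempty (f t) := fun t => ⟨⟨x t t, hx1 t t le_rfl⟩⟩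
  have hfin : ∀ t, Finite (f t) := fun t => hf t
  let _ : ∀ t, TopologicalSpace (f t) := fun t => ⊥
  have : ∀ t, DiscreteTopology (f t) := fun t => ⟨rfl⟩
  let B : ℕ → Set (∀ t, f t) := fun K => {y | ∀ s t, s < t → t ≤ K → ¬ R (y s).1 (y t).1}
  have hcl : ∀ K, IsClosed (B K) := by
    intro K
    have : B K = ⋂ s, ⋂ t, ⋂ (_ : s < t), ⋂ (_ : t ≤ K),
        {y : ∀ t, f t | ¬ R (y s).1 (y t).1} := by
      ext y; simp [B]
    rw [this]
    refine isClosed_iInter fun s => isClosed_iInter fun t => isClosed_iInter fun _ =>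
      isClosed_iInter fun _ => ?_
    have hc : Continuous (fun y : (∀ t, f t) => (y s, y t)) :=
      (continuous_apply s).prodMk (continuous_apply t)
    have := (isClosed_discrete {p : f s × f t | ¬ R p.1.1 p.2.1}).preimage hc
    exact this
  have hnonempty : (⋂ K, B K).Nonempty := by
    refine IsCompact.nonempty_iInter_of_sequence_nonempty_isCompact_isClosed B ?_ ?_ ?_ hcl
    · intro K y hy s t hst ht
      exact hy s t hst (by omega)
    · intro K
      refine ⟨fun t => if h : t ≤ K then ⟨x K t, hx1 K t h⟩ else (hne t).some, ?_⟩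
      intro s t hst ht
      have h1 : s ≤ K := by omega
      simp only [h1, ht, dif_pos]
      exact hx2 K s t hst ht
    · exact (hcl 0).isCompact
  obtain ⟨y, hy⟩ := hnonempty
  obtain ⟨m, n, hmn, h⟩ := hR (fun t => (y t).1)
  have := Set.mem_iInter.mp hy n
  exact this m n hmn le_rfl h

/-- Pairs of a letter and a word, compared letterwise. -/
theorem wqo_pair (V : Type) [Finite V] :
    WellQuasiOrdered (fun a b : V × List V => a.1 = b.1 ∧ a.2.Subperm b.2) := by
  classical
  intro f
  have h1 : WellQuasiOrdered (fun a b : V => a = b) := Finite.wellQuasiOrdered _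
  have h2 : WellQuasiOrdered (fun a b : V → ℕ => a ≤ b) := wellQuasiOrdered_le
  obtain ⟨m, n, hmn, h3, h4⟩ := (h1.prod h2) (fun k => ((f k).1, fun v => (f k).2.count v))
  refine ⟨m, n, hmn, h3, ?_⟩
  rw [List.subperm_ext_iff]
  intro v _
  exact h4 v

/-- Lifting permutations along a map. -/
theorem perm_lift {α β : Type} (f : α → β) : ∀ (l : List β) (r : List α),
    (r.map f).Perm l → ∃ r' : List α, r'.Perm r ∧ r'.map f = l := by
  intro l
  induction l with
  | nil =>
    intro r h
    have : r = [] := by simpa using h.eq_nil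
    exact ⟨[], by rw [this], rfl⟩
  | cons b l ih =>
    intro r h
    have hb : b ∈ r.map f := h.mem_iff.mpr List.mem_cons_self
    obtain ⟨x, hx, hxb⟩ := List.mem_map.mp hb
    obtain ⟨s, t, rfl⟩ := List.append_of_mem hx
    have h2 : ((s ++ t).map f).Perm l := by
      rw [List.map_append, List.map_cons, hxb] at h
      have h3 : (b :: (s.map f ++ t.map f)).Perm (b :: l) :=
        (List.perm_middle.symm).trans h
      rw [List.map_append]
      exact h3.cons_inv
    obtain ⟨r', h4, h5⟩ := ih _ h2
    exact ⟨x :: r', (h4.cons x).trans List.perm_middle.symm, by rw [List.map_cons, h5, hxb]⟩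

/-- Lifting subpermutations along a map. -/
theorem subperm_lift {α β : Type} (f : α → β) (l : List β) (m : List α)
    (h : l.Subperm (m.map f)) : ∃ r : List α, r.map f = l ∧ r.Subperm m := by
  obtain ⟨l', h1, h2⟩ := h
  obtain ⟨r, h3, h4⟩ := List.sublist_map_iff.mp h2
  subst h4
  obtain ⟨r', h5, h6⟩ := perm_lift f l r h1
  exact ⟨r', h6, (h5.subperm).trans h3.subperm⟩

theorem sum_le_of_subperm {α : Type} (g : α → ℕ) {l m : List α} (h : l.Subperm m) :
    (l.map g).sum ≤ (m.map g).sum := by
  obtain ⟨l', h1, h2⟩ := h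
  rw [← (h1.map g).sum_eq]
  exact (h2.map g).sum_le_sum (by simp)

/-- The letter `a`. -/
def isA {N : Type} : N ⊕ Fin 2 → Bool
  | Sum.inl _ => false
  | Sum.inr x => x == 0

/-- The number of letters `a`. -/
def nA {N : Type} (l : List (N ⊕ Fin 2)) : ℕ := l.countP isA

theorem nA_map {N : Type} (w : List (Fin 2)) :
    nA (w.map Sum.inr : List (N ⊕ Fin 2)) = w.count 0 := by
  unfold nA
  rw [List.countP_map]
  rfl

theorem nA_flatten {N : Type} (l : List (List (N ⊕ Fin 2))) :
    nA l.flatten = (l.map nA).sum := by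
  induction l with
  | nil => rfl
  | cons x l ih =>
    rw [List.flatten_cons, List.map_cons, List.sum_cons, ← ih]
    unfold nA
    rw [List.countP_append]

theorem der_length {T : Type} {G : ET0L T} {c : ℕ} (hc : ∀ h X y, (X, y) ∈ G.tab h → y.length ≤ c)
    {τ : List G.H} {u v : List (G.N ⊕ T)} (h : Der G τ u v) : v.length ≤ u.length * c ^ τ.length := by
  induction τ generalizing u with
  | nil => rw [show u = v from h]; simp
  | cons a τ ih =>
    obtain ⟨x, ⟨ys, hy, hx⟩, hd⟩ := h
    have h1 : x.length ≤ u.length * c := by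
      rw [hx]
      clear ih hd hx
      induction hy with
      | nil => simp
      | cons h1 h2 ih =>
        rw [List.flatten_cons, List.length_append, List.length_cons, Nat.add_mul]
        have := hc _ _ _ h1
        omega
    have h2 := ih hd
    calc v.length ≤ x.length * c ^ τ.length := h2
      _ ≤ (u.length * c) * c ^ τ.length := Nat.mul_le_mul_right _ h1
      _ = u.length * c ^ (a :: τ).length := by rw [List.length_cons]; ring

theorem infix_of_map {α β : Type} {f : α → β} (hf : Function.Injective f) {u v : List α}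
    (h : u.map f <:+: v.map f) : u <:+: v := by
  obtain ⟨s, t, h⟩ := h
  obtain ⟨v1, v2, e1, e2, e3⟩ := List.map_eq_append_iff.mp h.symm
  obtain ⟨v3, v4, e4, e5, e6⟩ := List.map_eq_append_iff.mp e2
  refine ⟨v3, v2, ?_⟩
  rw [e1, e4, List.map_injective_iff.mpr hf e6]

/-- Among few numbers with a large sum there is one which is at least two. -/
theorem exists_two {α : Type} (g : α → ℕ) : ∀ l : List α, l.length < (l.map g).sum →
    ∃ s x t, l = s ++ x :: t ∧ 2 ≤ g x := by
  intro l
  induction l with
  | nil => intro h; simp at h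
  | cons x l ih =>
    intro h
    by_cases hx : 2 ≤ g x
    · exact ⟨[], x, l, rfl, hx⟩
    · obtain ⟨s, y, t, h1, h2⟩ := ih (by
        rw [List.length_cons, List.map_cons, List.sum_cons] at h; omega)
      exact ⟨x :: s, y, t, by rw [h1]; rfl, h2⟩

/-- The second witness. -/
def L2 : Language (Fin 2) := {w | ∃ n m, n < m ∧ 2 ≤ m ∧ w = WD n m}

theorem L2_not_ET0L : L2 ∉ fET0L (Fin 2) := by
  classical
  rintro ⟨G, hG⟩
  have hN := G.finN
  obtain ⟨c, hc1, hc⟩ := exists_bound G
  set V := G.N ⊕ Fin 2 with hV
  let f : ℕ → Set (V × List V) := fun t => {p | p.2.length ≤ G.ax.length * c ^ t}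
  have hf : ∀ t, (f t).Finite := by
    intro t
    have h1 : f t = Set.univ ×ˢ {l : List V | l.length ≤ G.ax.length * c ^ t} := by
      ext p; simp [f]
    rw [h1]
    exact Set.finite_univ.prod (List.finite_length_le V _)
  obtain ⟨K, hK⟩ := bounded_wqo (wqo_pair V) f hf
  set n := G.ax.length * c ^ K + 1 with hn
  have hz : WD n (n + 1) ∈ G.lang := by
    rw [hG]; exact ⟨n, n + 1, by omega, by omega, rfl⟩
  -- a shortest derivation
  have hex : ∃ k, ∃ τ : List G.H, τ.length = k ∧ Der G τ G.ax ((WD n (n + 1)).map Sum.inr) := by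
    obtain ⟨τ, hτ⟩ := der_of_lang hz
    exact ⟨_, τ, rfl, hτ⟩
  obtain ⟨τ, hτl, hτ⟩ := Nat.find_spec hex
  have hmin := fun k (hk : k < Nat.find hex) => Nat.find_min hex hk
  rw [← hτl] at hmin
  set z : List V := (WD n (n + 1)).map Sum.inr with hzdef
  have hzc : nA z = n + 1 := by
    rw [hzdef, nA_map, WD_count]
  -- at every early level some symbol contributes two letters
  have hlev : ∀ t ≤ K, ∃ p : V × List V, ∃ s1 s2 : List (V × List V), ∃ x : V × List V,
      p.1 = x.1 ∧ p.2 = s1.map Prod.fst ++ s2.map Prod.fst ∧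
      Der G (τ.take t) G.ax (s1.map Prod.fst ++ x.1 :: s2.map Prod.fst) ∧
      (∀ q ∈ s1 ++ x :: s2, Der G (τ.drop t) [q.1] q.2) ∧
      ((s1 ++ x :: s2).map Prod.snd).flatten = z ∧ 2 ≤ nA x.2 ∧ p ∈ f t := by
    intro t ht
    have h1 : Der G (τ.take t ++ τ.drop t) G.ax z := by rw [List.take_append_drop]; exact hτ
    obtain ⟨v, d1, d2⟩ := der_cut h1
    obtain ⟨ps, e1, e2, e3⟩ := der_parts d2
    have hl := der_length hc d1
    have hl2 : v.length ≤ G.ax.length * c ^ t := by
      refine hl.trans (Nat.mul_le_mul_left _ (Nat.pow_le_pow_right hc1 ?_))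
      simp
    have hl3 : G.ax.length * c ^ t ≤ G.ax.length * c ^ K :=
      Nat.mul_le_mul_left _ (Nat.pow_le_pow_right hc1 ht)
    have hl4 : ps.length = v.length := by rw [← e1]; simp
    obtain ⟨s1, x, s2, e4, e5⟩ := exists_two
      (fun q : V × List V => nA q.2) ps (by
        have : (ps.map fun q : V × List V => nA q.2).sum = n + 1 := by
          rw [← hzc, ← e2, nA_flatten, List.map_map]; rfl
        rw [this]; omega)
    subst e4
    refine ⟨(x.1, s1.map Prod.fst ++ s2.map Prod.fst), s1, s2, x, rfl, rfl, ?_, e3, e2, e5, ?_⟩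
    · rw [← e1] at d1
      simpa using d1
    · change (s1.map Prod.fst ++ s2.map Prod.fst).length ≤ _
      have : (s1.map Prod.fst ++ s2.map Prod.fst).length + 1 = v.length := by
        rw [← hl4]; simp; omega
      omega
  choose! p s1 s2 x h1 h2 h3 h4 h5 h6 h7 using hlev
  obtain ⟨s, t, hst, ht, hR1, hR2⟩ := hK p fun t ht => h7 t ht
  have hs : s ≤ K := by omega
  rw [h1 s hs, h1 t ht] at hR1
  rw [h2 s hs, h2 t ht, ← List.map_append (l₁ := s1 t)] at hR2
  obtain ⟨r, hr1, hr2⟩ := subperm_lift _ _ _ hR2
  -- split `r`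
  obtain ⟨r1, r2, hr, hr3, hr4⟩ := List.map_eq_append_iff.mp hr1
  have hmem : ∀ q ∈ r1 ++ x t :: r2, Der G (τ.drop t) [q.1] q.2 := by
    intro q hq
    apply h4 t ht
    rcases List.mem_append.mp hq with hq | hq
    · have := hr2.subset (by rw [hr]; exact List.mem_append_left _ hq)
      rcases List.mem_append.mp this with h | h
      · exact List.mem_append_left _ h
      · exact List.mem_append_right _ (List.mem_cons_of_mem _ h)
    · rcases List.mem_cons.mp hq with hq | hq
      · rw [hq]; simp
      · have := hr2.subset (by rw [hr]; exact List.mem_append_right _ hq)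
        rcases List.mem_append.mp this with h | h
        · exact List.mem_append_left _ h
        · exact List.mem_append_right _ (List.mem_cons_of_mem _ h)
  have hd := der_of_parts (r1 ++ x t :: r2) hmem
  set z' := ((r1 ++ x t :: r2).map Prod.snd).flatten with hz'
  have hd2 : Der G (τ.take s ++ τ.drop t) G.ax z' := by
    refine der_trans (h3 s hs) ?_
    have : (r1 ++ x t :: r2).map Prod.fst = (s1 s).map Prod.fst ++ (x s).1 :: (s2 s).map Prod.fst := by
      rw [List.map_append, List.map_cons, hr3, hr4, hR1]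
    rw [← this]; exact hd
  -- `z'` is terminal
  have hterm : ∀ a ∈ z', ∃ b, a = Sum.inr b := by
    intro a ha
    have hsub : ∀ q ∈ r1 ++ x t :: r2, q ∈ s1 t ++ x t :: s2 t := by
      intro q hq
      rcases List.mem_append.mp hq with hq | hq
      · have := hr2.subset (by rw [hr]; exact List.mem_append_left _ hq)
        rcases List.mem_append.mp this with h | h
        · exact List.mem_append_left _ h
        · exact List.mem_append_right _ (List.mem_cons_of_mem _ h)
      · rcases List.mem_cons.mp hq with hq | hq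
        · rw [hq]; simp
        · have := hr2.subset (by rw [hr]; exact List.mem_append_right _ hq)
          rcases List.mem_append.mp this with h | h
          · exact List.mem_append_left _ h
          · exact List.mem_append_right _ (List.mem_cons_of_mem _ h)
    obtain ⟨l, hl1, hl2⟩ := List.mem_flatten.mp ha
    obtain ⟨q, hq1, hq2⟩ := List.mem_map.mp hl1
    have : a ∈ z := by
      rw [← h5 t ht]
      exact List.mem_flatten.mpr ⟨l, List.mem_map.mpr ⟨q, hsub q hq1, hq2⟩, hl2⟩
    rw [hzdef] at this
    obtain ⟨b, -, hb⟩ := List.mem_map.mp this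
    exact ⟨b, hb.symm⟩
  obtain ⟨w, hw⟩ : ∃ w : List (Fin 2), z' = w.map Sum.inr := by
    clear_value z'
    clear hd hd2 hz'
    induction z' with
    | nil => exact ⟨[], rfl⟩
    | cons a z' ih =>
      obtain ⟨b, hb⟩ := hterm a List.mem_cons_self
      obtain ⟨w, hw⟩ := ih fun a ha => hterm a (List.mem_cons_of_mem _ ha)
      exact ⟨b :: w, by rw [hb, hw]; rfl⟩
  have hfac : (x t).2 <:+: z' := ⟨(r1.map Prod.snd).flatten, (r2.map Prod.snd).flatten, by
    rw [hz']; simp⟩
  have hfac2 : (x t).2 <:+: z := ⟨((s1 t).map Prod.snd).flatten, ((s2 t).map Prod.snd).flatten, by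
    rw [← h5 t ht]; simp⟩
  have hne : z' ≠ [] := by
    intro h
    rw [h] at hfac
    have : (x t).2 = [] := by simpa using hfac
    have h8 := h6 t ht
    rw [this] at h8; simp [nA] at h8
  have hwL : w ∈ L2 := by
    rw [← hG]
    change Relation.ReflTransGen G.Step G.ax (w.map Sum.inr)
    rw [← hw]
    exact lang_of_der hd2 hne
  obtain ⟨n', m', hnm, -, rfl⟩ := hwL
  -- the block lengths agree
  obtain ⟨u, hu⟩ : ∃ u : List (Fin 2), (x t).2 = u.map Sum.inr := by
    rw [hw] at hfac
    obtain ⟨a, b, hab⟩ := hfac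
    have : (x t).2 = (((WD n' m').map Sum.inr : List V).drop a.length).take (x t).2.length := by
      rw [← hab]; simp
    rw [← List.map_drop, ← List.map_take] at this
    exact ⟨_, this⟩
  have hinj : Function.Injective (Sum.inr : Fin 2 → V) := Sum.inr_injective
  have hu1 : u <:+: WD n (n + 1) := by
    rw [hu, hzdef] at hfac2
    exact infix_of_map hinj hfac2
  have hu2 : u <:+: WD n' m' := by
    rw [hu, hw] at hfac
    exact infix_of_map hinj hfac
  have hu3 : 2 ≤ u.count 0 := by
    have := h6 t ht
    rw [hu, nA_map] at this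
    exact this
  have hnn : n' = n := same_block hu1 hu2 hu3
  -- the number of letters `a`
  have hcnt : m' ≤ n + 1 := by
    have e1 : nA z' = m' := by
      rw [hw, nA_map, WD_count]
    have e2 : nA z' ≤ nA z := by
      rw [hz', ← h5 t ht, nA_flatten, nA_flatten, List.map_map, List.map_map]
      apply sum_le_of_subperm
      have h9 : (r1 ++ x t :: r2).Perm (x t :: r) := by rw [hr]; exact List.perm_middle
      have h10 : (s1 t ++ x t :: s2 t).Perm (x t :: (s1 t ++ s2 t)) := List.perm_middle
      exact (h9.subperm).trans (((List.subperm_cons _).mpr hr2).trans h10.symm.subperm)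
    omega
  have hm : m' = n + 1 := by omega
  subst hm hnn
  have hlt : (τ.take s ++ τ.drop t).length < τ.length := by
    have hT : K < τ.length := by
      by_contra hcon
      push Not at hcon
      have h11 := der_length hc hτ
      have h12 : G.ax.length * c ^ τ.length ≤ G.ax.length * c ^ K :=
        Nat.mul_le_mul_left _ (Nat.pow_le_pow_right hc1 hcon)
      have h13 : nA z ≤ z.length := List.countP_le_length
      omega
    rw [List.length_append, List.length_take, List.length_drop]
    omega
  apply hmin _ hlt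
  refine ⟨_, rfl, ?_⟩
  rw [hw] at hd2
  exact hd2

end Pool.Agent.V11232.ET
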