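import Pool.Agent.V11232.ET.Basic
import Pool.Agent.V11232.ET.Words

namespace Pool.Agent.V11232.ET

variable {G : ET0L (Fin 2)}

/-- Symbols that can contribute a terminal word. -/
def GS (σ : List G.H) : Set (G.N ⊕ Fin 2) := {X | ∃ u : List (Fin 2), Der G σ [X] (u.map Sum.inr)}

/-- Symbols that can contribute a terminal word with a letter `0`. -/
def AT (σ : List G.H) : Set (G.N ⊕ Fin 2) :=
  {X | ∃ u : List (Fin 2), Der G σ [X] (u.map Sum.inr) ∧ 0 ∈ u}

open Classical in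
/-- The number of symbols from `AT σ`. -/
noncomputable def nAT (σ : List G.H) (v : List (G.N ⊕ Fin 2)) : ℕ :=
  v.countP (fun Y => decide (Y ∈ AT σ))

theorem nAT_append (σ : List G.H) (u v : List (G.N ⊕ Fin 2)) :
    nAT σ (u ++ v) = nAT σ u + nAT σ v := by simp [nAT]

theorem nAT_pos {σ : List G.H} {v : List (G.N ⊕ Fin 2)} {Y : G.N ⊕ Fin 2} (h1 : Y ∈ v)
    (h2 : Y ∈ AT σ) : 1 ≤ nAT σ v := by
  unfold nAT
  rw [Nat.one_le_iff_ne_zero, Ne, List.countP_eq_zero]
  push Not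
  exact ⟨Y, h1, by simpa using h2⟩

/-- Terminal contributions. -/
theorem der_tparts {τ : List G.H} {u : List (G.N ⊕ Fin 2)} {w : List (Fin 2)}
    (h : Der G τ u (w.map Sum.inr)) :
    ∃ ps : List ((G.N ⊕ Fin 2) × List (Fin 2)), ps.map Prod.fst = u ∧
      (ps.map Prod.snd).flatten = w ∧ ∀ p ∈ ps, Der G τ [p.1] (p.2.map Sum.inr) := by
  induction u generalizing w with
  | nil =>
    have := der_nil h
    have hw : w = [] := by simpa using this
    exact ⟨[], rfl, by rw [hw]; rfl, by simp⟩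
  | cons X u ih =>
    have h' : Der G τ ([X] ++ u) (w.map Sum.inr) := h
    obtain ⟨v1, v2, e, d1, d2⟩ := der_split h'
    obtain ⟨w1, w2, e1, e2, e3⟩ := List.map_eq_append_iff.mp e
    rw [← e2] at d1
    rw [← e3] at d2
    obtain ⟨ps, f1, f2, f3⟩ := ih d2
    refine ⟨(X, w1) :: ps, by simp [f1], by simp [f2, e1], ?_⟩
    intro p hp
    rcases List.mem_cons.mp hp with rfl | hp
    · exact d1
    · exact f3 p hp

theorem gs_of_der {σ : List G.H} {x : List (G.N ⊕ Fin 2)} {u : List (Fin 2)}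
    (h : Der G σ x (u.map Sum.inr)) :
    (∀ Z ∈ x, Z ∈ GS σ) ∧ (0 ∈ u → ∃ Z ∈ x, Z ∈ AT σ) := by
  obtain ⟨ps, h1, h2, h3⟩ := der_tparts h
  constructor
  · intro Z hZ
    rw [← h1] at hZ
    obtain ⟨p, hp, rfl⟩ := List.mem_map.mp hZ
    exact ⟨p.2, h3 p hp⟩
  · intro h0
    rw [← h2, List.mem_flatten] at h0
    obtain ⟨l, hl, h0⟩ := h0
    obtain ⟨p, hp, rfl⟩ := List.mem_map.mp hl
    exact ⟨p.1, by rw [← h1]; exact List.mem_map.mpr ⟨p, hp, rfl⟩, p.2, h3 p hp, h0⟩

/-- Continuing along `τ` inside of the good symbols. -/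
theorem cont (τ σ : List G.H) (α : List (G.N ⊕ Fin 2)) (h : ∀ Y ∈ α, Y ∈ GS (τ ++ σ)) :
    ∃ α', Der G τ α α' ∧ (∀ Z ∈ α', Z ∈ GS σ) ∧ nAT (τ ++ σ) α ≤ nAT σ α' := by
  induction α with
  | nil =>
    refine ⟨[], ?_, by simp, by simp [nAT]⟩
    exact der_of_parts [] (by simp)
  | cons Y α ih =>
    obtain ⟨α', d, g, n⟩ := ih fun Z hZ => h Z (List.mem_cons_of_mem _ hZ)
    have key : ∃ x, Der G τ [Y] x ∧ (∀ Z ∈ x, Z ∈ GS σ) ∧ nAT (τ ++ σ) [Y] ≤ nAT σ x := by
      by_cases hY : Y ∈ AT (τ ++ σ)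
      · obtain ⟨u, hu, h0⟩ := hY
        obtain ⟨x, d1, d2⟩ := der_cut hu
        obtain ⟨g1, g2⟩ := gs_of_der d2
        obtain ⟨Z, hZ1, hZ2⟩ := g2 h0
        refine ⟨x, d1, g1, ?_⟩
        have h1 := nAT_pos hZ1 hZ2
        have h2 : nAT (τ ++ σ) [Y] ≤ 1 := by
          unfold nAT
          exact List.countP_le_length
        omega
      · obtain ⟨u, hu⟩ := h Y List.mem_cons_self
        obtain ⟨x, d1, d2⟩ := der_cut hu
        obtain ⟨g1, g2⟩ := gs_of_der d2
        refine ⟨x, d1, g1, ?_⟩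
        have h2 : nAT (τ ++ σ) [Y] = 0 := by
          unfold nAT
          rw [List.countP_eq_zero]
          simpa using hY
        omega
    obtain ⟨x, d1, g1, n1⟩ := key
    refine ⟨x ++ α', der_append d1 d, ?_, ?_⟩
    · intro Z hZ
      rcases List.mem_append.mp hZ with hZ | hZ
      · exact g1 Z hZ
      · exact g Z hZ
    · have : Y :: α = [Y] ++ α := rfl
      rw [this, nAT_append, nAT_append]; omega

/-- Nodes of derivation trees of factors of `z0`. -/
structure Node (G : ET0L (Fin 2)) (z0 : List (Fin 2)) where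
  σ : List G.H
  X : G.N ⊕ Fin 2
  u : List (Fin 2)
  der : Der G σ [X] (u.map Sum.inr)
  inf : u <:+: z0

/-- `y ⇒ α X' β`, where the context `α β` is good for `σ'` and has at least `k` symbols
from `AT σ'`. -/
def DD (k : ℕ) (σ : List G.H) (y : List (G.N ⊕ Fin 2)) (σ' : List G.H) (X' : G.N ⊕ Fin 2) : Prop :=
  ∃ τ, σ = τ ++ σ' ∧ ∃ α β, Der G τ y (α ++ X' :: β) ∧ (∀ Y ∈ α ++ β, Y ∈ GS σ') ∧
    k ≤ nAT σ' (α ++ β)

theorem dd_trans {k1 k2 : ℕ} {σ1 σ2 σ3 : List G.H} {y : List (G.N ⊕ Fin 2)}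
    {X2 X3 : G.N ⊕ Fin 2} (h1 : DD k1 σ1 y σ2 X2) (h2 : DD k2 σ2 [X2] σ3 X3) :
    DD (k1 + k2) σ1 y σ3 X3 := by
  obtain ⟨τ1, e1, α, β, d1, g1, n1⟩ := h1
  obtain ⟨τ2, e2, α', β', d2, g2, n2⟩ := h2
  subst e2
  obtain ⟨αn, da, ga, na⟩ := cont τ2 σ3 α fun Y hY => g1 Y (List.mem_append_left _ hY)
  obtain ⟨βn, db, gb, nb⟩ := cont τ2 σ3 β fun Y hY => g1 Y (List.mem_append_right _ hY)
  refine ⟨τ1 ++ τ2, by rw [e1]; simp, αn ++ α', β' ++ βn, ?_, ?_, ?_⟩
  · refine der_trans d1 ?_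
    have h3 := der_append da (der_append d2 db)
    have e3 : αn ++ (α' ++ X3 :: β' ++ βn) = (αn ++ α') ++ X3 :: (β' ++ βn) := by simp
    rw [e3] at h3
    exact h3
  · intro Y hY
    simp only [List.mem_append] at hY
    rcases hY with (hY | hY) | (hY | hY)
    · exact ga Y hY
    · exact g2 Y (List.mem_append_left _ hY)
    · exact g2 Y (List.mem_append_right _ hY)
    · exact gb Y hY
  · rw [nAT_append] at n1 n2
    simp only [nAT_append]
    omega

/-- Choosing the symbol with the largest number of letters `0`. -/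
theorem exists_max {α : Type} (f : α → ℕ) (ps : List α) (hps : ps ≠ []) :
    ∃ p ∈ ps, ∀ q ∈ ps, f q ≤ f p := by
  induction ps with
  | nil => exact absurd rfl hps
  | cons x ps ih =>
    by_cases h : ps = []
    · subst h
      exact ⟨x, by simp, by simp⟩
    · obtain ⟨p, hp, hmax⟩ := ih h
      by_cases hx : f p ≤ f x
      · refine ⟨x, by simp, fun q hq => ?_⟩
        rcases List.mem_cons.mp hq with rfl | hq
        · exact le_rfl
        · exact (hmax q hq).trans hx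
      · refine ⟨p, List.mem_cons_of_mem _ hp, fun q hq => ?_⟩
        rcases List.mem_cons.mp hq with rfl | hq
        · omega
        · exact hmax q hq

theorem count_flatten_le {α : Type} (f : α → List (Fin 2)) (ps : List α) (b : ℕ)
    (h : ∀ q ∈ ps, (f q).count 0 ≤ b) : (ps.map f).flatten.count 0 ≤ ps.length * b := by
  induction ps with
  | nil => simp
  | cons x ps ih =>
    have h1 := ih fun q hq => h q (List.mem_cons_of_mem _ hq)
    have h2 := h x List.mem_cons_self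
    rw [List.map_cons, List.flatten_cons, List.count_append, List.length_cons]
    nlinarith

theorem count_flatten_pos {α : Type} (f : α → List (Fin 2)) (ps : List α)
    (h : 1 ≤ (ps.map f).flatten.count 0) : ∃ q ∈ ps, 0 ∈ f q := by
  have : 0 ∈ (ps.map f).flatten := List.count_pos_iff.mp (by omega)
  rw [List.mem_flatten] at this
  obtain ⟨l, hl, h0⟩ := this
  obtain ⟨q, hq, rfl⟩ := List.mem_map.mp hl
  exact ⟨q, hq, h0⟩

theorem infix_of_parts {α : Type} (f : α → List (Fin 2)) {ps : List α} {p : α} (hp : p ∈ ps) :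
    f p <:+: (ps.map f).flatten := by
  obtain ⟨s, t, rfl⟩ := List.append_of_mem hp
  exact ⟨(s.map f).flatten, (t.map f).flatten, by simp⟩

theorem descend {c : ℕ} (hc : ∀ h X y, (X, y) ∈ G.tab h → y.length ≤ c) {z0 : List (Fin 2)}
    (σ : List G.H) : ∀ (X : G.N ⊕ Fin 2) (u : List (Fin 2)), Der G σ [X] (u.map Sum.inr) →
      u <:+: z0 → 2 ≤ u.count 0 → ∃ n' : Node G z0, DD 1 σ [X] n'.σ n'.X ∧
        u.count 0 ≤ c * n'.u.count 0 := by
  induction σ with
  | nil =>
    intro X u h _ h2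
    have h' : [X] = u.map Sum.inr := h
    have : u.length = 1 := by
      have := congrArg List.length h'; simpa using this.symm
    have := List.count_le_length (a := (0 : Fin 2)) (l := u)
    omega
  | cons a σ1 ih =>
    intro X u h hinf h2
    obtain ⟨x, s, d⟩ := h
    have hx : x.length ≤ c := hc a X x (stepH_single.mp s)
    obtain ⟨ps, e1, e2, e3⟩ := der_tparts d
    have hps : ps ≠ [] := by
      rintro rfl
      rw [← e2] at h2; simp at h2
    obtain ⟨p, hp, hmax⟩ := exists_max (fun q : (G.N ⊕ Fin 2) × List (Fin 2) => q.2.count 0) ps hps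
    have hpinf : p.2 <:+: z0 := by
      refine List.IsInfix.trans ?_ hinf
      rw [← e2]
      exact infix_of_parts (fun q : (G.N ⊕ Fin 2) × List (Fin 2) => q.2) hp
    have hle : u.count 0 ≤ c * p.2.count 0 := by
      have h3 := count_flatten_le (fun q : (G.N ⊕ Fin 2) × List (Fin 2) => q.2) ps _ hmax
      rw [e2] at h3
      have h4 : ps.length ≤ c := by
        rw [← e1, List.length_map] at hx; exact hx
      exact h3.trans (Nat.mul_le_mul_right _ h4)
    obtain ⟨ps1, ps2, rfl⟩ := List.append_of_mem hp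
    have hgs : ∀ q ∈ ps1 ++ p :: ps2, q.1 ∈ GS σ1 := fun q hq => ⟨q.2, e3 q hq⟩
    have hx' : x = ps1.map Prod.fst ++ p.1 :: ps2.map Prod.fst := by rw [← e1]; simp
    have hD : ∀ k, k ≤ nAT σ1 (ps1.map Prod.fst ++ ps2.map Prod.fst) →
        DD k (a :: σ1) [X] σ1 p.1 := by
      intro k hk
      refine ⟨[a], rfl, ps1.map Prod.fst, ps2.map Prod.fst, ?_, ?_, hk⟩
      · rw [← hx']; exact ⟨x, s, rfl⟩
      · intro Y hY
        rcases List.mem_append.mp hY with hY | hY
        · obtain ⟨q, hq, rfl⟩ := List.mem_map.mp hY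
          exact hgs q (by simp [hq])
        · obtain ⟨q, hq, rfl⟩ := List.mem_map.mp hY
          exact hgs q (by simp [hq])
    by_cases hcase : p.2.count 0 = u.count 0
    · obtain ⟨n', g1, g2⟩ := ih p.1 p.2 (e3 p hp) hpinf (by omega)
      refine ⟨n', ?_, by rw [← hcase]; exact g2⟩
      have := dd_trans (hD 0 (Nat.zero_le _)) g1
      simpa using this
    · refine ⟨⟨σ1, p.1, p.2, e3 p hp, hpinf⟩, hD 1 ?_, hle⟩
      have hsum : u.count 0 = (ps1.map Prod.snd).flatten.count 0 + p.2.count 0 +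
          (ps2.map Prod.snd).flatten.count 0 := by
        rw [← e2]; simp; omega
      have hlt : p.2.count 0 < u.count 0 := by omega
      rw [nAT_append]
      by_cases h5 : 1 ≤ (ps1.map Prod.snd).flatten.count 0
      · obtain ⟨q, hq, h0⟩ := count_flatten_pos _ _ h5
        have : 1 ≤ nAT σ1 (ps1.map Prod.fst) :=
          nAT_pos (List.mem_map.mpr ⟨q, hq, rfl⟩) ⟨q.2, e3 q (by simp [hq]), h0⟩
        omega
      · have h6 : 1 ≤ (ps2.map Prod.snd).flatten.count 0 := by omega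
        obtain ⟨q, hq, h0⟩ := count_flatten_pos _ _ h6
        have : 1 ≤ nAT σ1 (ps2.map Prod.fst) :=
          nAT_pos (List.mem_map.mpr ⟨q, hq, rfl⟩) ⟨q.2, e3 q (by simp [hq]), h0⟩
        omega

/-- Iterating a repeated type. -/
theorem iter {σ τ : List G.H} {X : G.N ⊕ Fin 2} {α β : List (G.N ⊕ Fin 2)}
    (hd : Der G τ [X] (α ++ X :: β)) (hg : ∀ Y ∈ α ++ β, Y ∈ GS σ) (hn : 1 ≤ nAT σ (α ++ β))
    (hGS : (GS (τ ++ σ) : Set (G.N ⊕ Fin 2)) = GS σ)
    (hAT : (AT (τ ++ σ) : Set (G.N ⊕ Fin 2)) = AT σ)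
    (v1 v2 : List (G.N ⊕ Fin 2)) (hv : ∀ Y ∈ v1 ++ v2, Y ∈ GS σ) (r : ℕ) :
    ∃ (ρ : List G.H) (w1 w2 : List (G.N ⊕ Fin 2)), Der G ρ (v1 ++ X :: v2) (w1 ++ X :: w2) ∧
      (∀ Y ∈ w1 ++ w2, Y ∈ GS σ) ∧ r ≤ nAT σ (w1 ++ w2) := by
  have hnAT : ∀ v : List (G.N ⊕ Fin 2), nAT (τ ++ σ) v = nAT σ v := by
    intro v; unfold nAT; rw [hAT]
  induction r with
  | zero => exact ⟨[], v1, v2, rfl, hv, Nat.zero_le _⟩
  | succ r ih =>
    obtain ⟨ρ, w1, w2, d, g, n⟩ := ih
    obtain ⟨x1, d1, g1, n1⟩ := cont τ σ w1 fun Y hY => by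
      rw [hGS]; exact g Y (List.mem_append_left _ hY)
    obtain ⟨x2, d2, g2, n2⟩ := cont τ σ w2 fun Y hY => by
      rw [hGS]; exact g Y (List.mem_append_right _ hY)
    refine ⟨ρ ++ τ, x1 ++ α, β ++ x2, ?_, ?_, ?_⟩
    · refine der_trans d ?_
      have h3 := der_append d1 (der_append hd d2)
      have e3 : x1 ++ (α ++ X :: β ++ x2) = (x1 ++ α) ++ X :: (β ++ x2) := by simp
      rw [e3] at h3
      exact h3
    · intro Y hY
      simp only [List.mem_append] at hY
      rcases hY with (hY | hY) | (hY | hY)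
      · exact g1 Y hY
      · exact hg Y (List.mem_append_left _ hY)
      · exact hg Y (List.mem_append_right _ hY)
      · exact g2 Y hY
    · rw [hnAT] at n1 n2
      rw [nAT_append] at n hn
      simp only [nAT_append]
      omega

/-- Finishing a derivation. -/
theorem finish {σ : List G.H} (v : List (G.N ⊕ Fin 2)) (h : ∀ Y ∈ v, Y ∈ GS σ) :
    ∃ u : List (Fin 2), Der G σ v (u.map Sum.inr) ∧ nAT σ v ≤ u.count 0 := by
  induction v with
  | nil =>
    refine ⟨[], ?_, by simp [nAT]⟩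
    exact der_of_parts (τ := σ) [] (by simp)
  | cons Y v ih =>
    obtain ⟨u, d, n⟩ := ih fun Z hZ => h Z (List.mem_cons_of_mem _ hZ)
    have key : ∃ u1 : List (Fin 2), Der G σ [Y] (u1.map Sum.inr) ∧ nAT σ [Y] ≤ u1.count 0 := by
      by_cases hY : Y ∈ AT σ
      · obtain ⟨u1, hu, h0⟩ := hY
        refine ⟨u1, hu, ?_⟩
        have h1 : 0 < u1.count 0 := List.count_pos_iff.mpr h0
        have h2 : nAT σ [Y] ≤ 1 := by
          unfold nAT
          exact List.countP_le_length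
        omega
      · obtain ⟨u1, hu⟩ := h Y List.mem_cons_self
        refine ⟨u1, hu, ?_⟩
        have h2 : nAT σ [Y] = 0 := by
          unfold nAT
          rw [List.countP_eq_zero]
          simpa using hY
        omega
    obtain ⟨u1, d1, n1⟩ := key
    refine ⟨u1 ++ u, ?_, ?_⟩
    · rw [List.map_append]; exact der_append d1 d
    · have : Y :: v = [Y] ++ v := rfl
      rw [this, nAT_append, List.count_append]; omega

/-- The pumping theorem: words with many letters `0` have a factor with two letters `0` that occurs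
in words of the language with arbitrarily many letters `0`. -/
theorem pumping (G : ET0L (Fin 2)) : ∃ C : ℕ, ∀ z0 : List (Fin 2), z0 ∈ G.lang → C ≤ z0.count 0 →
    ∃ u : List (Fin 2), u <:+: z0 ∧ 2 ≤ u.count 0 ∧ ∀ r : ℕ, ∃ z ∈ G.lang, u <:+: z ∧
      r ≤ z.count 0 := by
  classical
  have := G.finN
  obtain ⟨c, hc1, hc⟩ := exists_bound G
  let Ty : Type := (G.N ⊕ Fin 2) × Set (G.N ⊕ Fin 2) × Set (G.N ⊕ Fin 2)
  have : Fintype Ty := Fintype.ofFinite _
  let N := Fintype.card Ty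
  refine ⟨G.ax.length * (2 * c ^ N), fun z0 hz0 hC => ?_⟩
  obtain ⟨τ0, hτ0⟩ := der_of_lang hz0
  -- the root
  obtain ⟨ps, e1, e2, e3⟩ := der_tparts hτ0
  have hps : ps ≠ [] := by
    rintro rfl
    exact G.ax_ne e1.symm
  obtain ⟨p, hp, hmax⟩ := exists_max (fun q : (G.N ⊕ Fin 2) × List (Fin 2) => q.2.count 0) ps hps
  have hpinf : p.2 <:+: z0 := by
    rw [← e2]
    exact infix_of_parts (fun q : (G.N ⊕ Fin 2) × List (Fin 2) => q.2) hp
  have hp0 : 2 * c ^ N ≤ p.2.count 0 := by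
    have h3 := count_flatten_le (fun q : (G.N ⊕ Fin 2) × List (Fin 2) => q.2) ps _ hmax
    rw [e2] at h3
    have h4 : ps.length = G.ax.length := by rw [← e1, List.length_map]
    rw [h4] at h3
    have h5 : 0 < G.ax.length := List.length_pos_iff.mpr G.ax_ne
    exact Nat.le_of_mul_le_mul_left (hC.trans h3) h5
  obtain ⟨ps1, ps2, rfl⟩ := List.append_of_mem hp
  let n0 : Node G z0 := ⟨τ0, p.1, p.2, e3 p hp, hpinf⟩
  have hroot : DD 0 τ0 G.ax τ0 p.1 := by
    refine ⟨[], rfl, ps1.map Prod.fst, ps2.map Prod.fst, ?_, ?_, Nat.zero_le _⟩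
    · change G.ax = _
      rw [← e1]; simp
    · intro Y hY
      rcases List.mem_append.mp hY with hY | hY
      · obtain ⟨q, hq, rfl⟩ := List.mem_map.mp hY
        exact ⟨q.2, e3 q (by simp [hq])⟩
      · obtain ⟨q, hq, rfl⟩ := List.mem_map.mp hY
        exact ⟨q.2, e3 q (by simp [hq])⟩
  -- the chain of nodes
  have hstep : ∀ n : Node G z0, ∃ n' : Node G z0, 2 ≤ n.u.count 0 →
      DD 1 n.σ [n.X] n'.σ n'.X ∧ n.u.count 0 ≤ c * n'.u.count 0 := by
    intro n
    by_cases h : 2 ≤ n.u.count 0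
    · obtain ⟨n', h1, h2⟩ := descend hc n.σ n.X n.u n.der n.inf h
      exact ⟨n', fun _ => ⟨h1, h2⟩⟩
    · exact ⟨n, fun h' => absurd h' h⟩
  choose nx hnx using hstep
  let s : ℕ → Node G z0 := fun i => nx^[i] n0
  have hs : ∀ i, s (i + 1) = nx (s i) := fun i => Function.iterate_succ_apply' nx i n0
  have hcount : ∀ i ≤ N, 2 * c ^ (N - i) ≤ (s i).u.count 0 := by
    intro i
    induction i with
    | zero => intro _; exact hp0
    | succ i ih =>
      intro hi
      have h1 := ih (by omega)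
      have h2 : 2 ≤ (s i).u.count 0 := by
        have : 1 ≤ c ^ (N - i) := Nat.one_le_pow _ _ hc1
        omega
      have h3 := (hnx (s i) h2).2
      rw [← hs] at h3
      have h4 : c ^ (N - i) = c * c ^ (N - (i + 1)) := by
        rw [← pow_succ']; congr 1; omega
      rw [h4] at h1
      have h5 : c * (2 * c ^ (N - (i + 1))) ≤ c * (s (i + 1)).u.count 0 := by
        calc c * (2 * c ^ (N - (i + 1))) = 2 * (c * c ^ (N - (i + 1))) := by ring
          _ ≤ _ := h1
          _ ≤ _ := h3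
      exact Nat.le_of_mul_le_mul_left h5 (by omega)
  have hcount2 : ∀ i ≤ N, 2 ≤ (s i).u.count 0 := by
    intro i hi
    have h1 := hcount i hi
    have : 1 ≤ c ^ (N - i) := Nat.one_le_pow _ _ hc1
    omega
  have hDD : ∀ i k, i + (k + 1) ≤ N → DD (k + 1) (s i).σ [(s i).X] (s (i + (k + 1))).σ
      (s (i + (k + 1))).X := by
    intro i k
    induction k with
    | zero =>
      intro hi
      rw [show i + (0 + 1) = i + 1 from rfl, hs]
      exact (hnx (s i) (hcount2 i (by omega))).1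
    | succ k ih =>
      intro hi
      have h1 := ih (by omega)
      have h2 := (hnx (s (i + (k + 1))) (hcount2 _ (by omega))).1
      rw [← hs] at h2
      exact dd_trans h1 h2
  have hroot2 : ∀ i ≤ N, ∃ k, DD k τ0 G.ax (s i).σ (s i).X := by
    intro i hi
    cases i with
    | zero => exact ⟨0, hroot⟩
    | succ i =>
      have h1 := hDD 0 i (by omega)
      rw [Nat.zero_add] at h1
      exact ⟨0 + (i + 1), dd_trans hroot h1⟩
  -- pigeonhole
  let ty : ℕ → Ty := fun i => ((s i).X, GS (s i).σ, AT (s i).σ)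
  obtain ⟨i, j, hij, hjN, hty⟩ : ∃ i j, i < j ∧ j ≤ N ∧ ty i = ty j := by
    have hcard : Fintype.card Ty < Fintype.card (Fin (N + 1)) := by simp [N]
    obtain ⟨x, y, hxy, he⟩ := Fintype.exists_ne_map_eq_of_card_lt
      (fun i : Fin (N + 1) => ty i) hcard
    rcases lt_or_gt_of_ne hxy with h | h
    · exact ⟨x, y, h, by have := y.2; omega, he⟩
    · exact ⟨y, x, h, by have := x.2; omega, he.symm⟩
  obtain ⟨k, rfl⟩ : ∃ k, j = i + (k + 1) := ⟨j - i - 1, by omega⟩
  obtain ⟨τ, hσ, α, β, hd, hg, hn⟩ := hDD i k hjN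
  obtain ⟨k0, τr, hσr, αr, βr, hdr, hgr, -⟩ := hroot2 i (by omega)
  have hX : (s i).X = (s (i + (k + 1))).X := congrArg (fun t => t.1) hty
  have hGS : (GS (s i).σ : Set (G.N ⊕ Fin 2)) = GS (s (i + (k + 1))).σ :=
    congrArg (fun t => t.2.1) hty
  have hAT : (AT (s i).σ : Set (G.N ⊕ Fin 2)) = AT (s (i + (k + 1))).σ :=
    congrArg (fun t => t.2.2) hty
  set nj := s (i + (k + 1)) with hnj
  rw [hX] at hd hdr
  rw [hσ] at hGS hAT
  refine ⟨nj.u, nj.inf, hcount2 _ hjN, fun r => ?_⟩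
  have hgr' : ∀ Y ∈ αr ++ βr, Y ∈ GS nj.σ := by
    intro Y hY
    have := hgr Y hY
    rw [hσ, hGS] at this
    exact this
  obtain ⟨ρ, w1, w2, hρ, hgw, hnw⟩ := iter hd hg (by omega) hGS hAT αr βr hgr' r
  obtain ⟨u1, du1, nu1⟩ := finish (σ := nj.σ) w1 fun Y hY => hgw Y (List.mem_append_left _ hY)
  obtain ⟨u2, du2, nu2⟩ := finish (σ := nj.σ) w2 fun Y hY => hgw Y (List.mem_append_right _ hY)
  have hfin : Der G nj.σ (w1 ++ nj.X :: w2) ((u1 ++ (nj.u ++ u2)).map Sum.inr) := by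
    rw [List.map_append, List.map_append]
    exact der_append du1 (der_append nj.der du2)
  have hne : (u1 ++ (nj.u ++ u2)) ≠ [] := by
    intro h
    have h2 := hcount2 _ hjN
    rw [← hnj] at h2
    have : nj.u = [] := by
      have := congrArg List.length h
      simp at this
      exact List.length_eq_zero_iff.mp (by simp [this])
    rw [this] at h2; simp at h2
  refine ⟨u1 ++ (nj.u ++ u2), ?_, ⟨u1, u2, by simp⟩, ?_⟩
  · exact lang_of_der (der_trans hdr (der_trans hρ hfin)) (by simpa using hne)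
  · rw [nAT_append] at hnw
    simp only [List.count_append]
    omega

/-- The first witness. -/
def L1 : Language (Fin 2) := {w | ∃ n m, 1 ≤ m ∧ m ≤ n ∧ w = WD n m}

theorem L1_not_ET0L : L1 ∉ fET0L (Fin 2) := by
  rintro ⟨G, hG⟩
  obtain ⟨C, hC⟩ := pumping G
  have hz : WD (C + 1) (C + 1) ∈ G.lang := by
    rw [hG]; exact ⟨C + 1, C + 1, by omega, le_rfl, rfl⟩
  obtain ⟨u, h1, h2, h3⟩ := hC _ hz (by rw [WD_count]; omega)
  obtain ⟨z, hz, h4, h5⟩ := h3 (C + 2)
  rw [hG] at hz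
  obtain ⟨n, m, -, hmn, rfl⟩ := hz
  have := same_block h1 h4 h2
  rw [WD_count] at h5
  omega

end Pool.Agent.V11232.ET
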