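import Pool.Agent.V11232.ET.PStep
import Pool.Agent.V11232.ET.Pump

namespace Pool.Agent.V11232.ET

/-- Nonterminals of the left forbidding grammar. -/
inductive NF : Type
  | S | U0 | U | M
  deriving DecidableEq, Fintype

open NF

/-- Symbols. -/
abbrev SF : Type := NF ⊕ Fin 2

/-- The terminal `a`. -/
abbrev fa : SF := Sum.inr 0
/-- The terminal `b`. -/
abbrev fb : SF := Sum.inr 1
/-- Nonterminal symbols. -/
abbrev nt (x : NF) : SF := Sum.inl x

/-- The rules. -/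
def PF : Set (SF × List SF × Set NF × Set NF) :=
  {(nt S, [nt S, nt U0], ∅, ∅), (nt S, [nt U0], ∅, ∅), (nt U0, [nt U0], ∅, {U, M}),
    (nt U0, [nt U], ∅, {U, M}), (nt U, [nt U, fb], ∅, {U0, S}),
    (nt U, [nt M, fb], ∅, {U, U0, S}), (nt M, [nt M, fb], ∅, {U0, S}),
    (nt M, [fa], ∅, {U0, S}), (fb, [fb], ∅, ∅)}

theorem PF_mem {X : SF} {y : List SF} {U' W : Set NF} (h : (X, y, U', W) ∈ PF) :
    (X = nt S ∧ y = [nt S, nt U0] ∧ U' = ∅ ∧ W = ∅) ∨
    (X = nt S ∧ y = [nt U0] ∧ U' = ∅ ∧ W = ∅) ∨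
    (X = nt U0 ∧ y = [nt U0] ∧ U' = ∅ ∧ W = {U, M}) ∨
    (X = nt U0 ∧ y = [nt U] ∧ U' = ∅ ∧ W = {U, M}) ∨
    (X = nt U ∧ y = [nt U, fb] ∧ U' = ∅ ∧ W = {U0, S}) ∨
    (X = nt U ∧ y = [nt M, fb] ∧ U' = ∅ ∧ W = {U, U0, S}) ∨
    (X = nt M ∧ y = [nt M, fb] ∧ U' = ∅ ∧ W = {U0, S}) ∨
    (X = nt M ∧ y = [fa] ∧ U' = ∅ ∧ W = {U0, S}) ∨
    (X = fb ∧ y = [fb] ∧ U' = ∅ ∧ W = ∅) := by
  simpa only [PF, Set.mem_insert_iff, Set.mem_singleton_iff, Prod.mk.injEq] using h

/-- The left forbidding grammar. -/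
def GF : LRC (Fin 2) where
  N := NF
  finN := inferInstance
  P := PF
  finP := by unfold PF; exact Set.toFinite _
  ax := [nt S]
  ax_ne := by simp

theorem GF_forbidding : GF.Forbidding := by
  intro X y U W h
  rcases PF_mem h with h | h | h | h | h | h | h | h | h <;> exact h.2.2.1

theorem GF_propagating : GF.Propagating := by
  intro X y U W h
  rcases PF_mem h with h | h | h | h | h | h | h | h | h <;> rw [h.2.1] <;>
    exact List.cons_ne_nil _ _

/-- Applicability. -/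
def AF (pre : List SF) (X : SF) (y : List SF) : Prop := App GF pre X y

theorem AF_iff (pre : List SF) (X : SF) (y : List SF) : AF pre X y ↔
    (X = nt S ∧ y = [nt S, nt U0]) ∨ (X = nt S ∧ y = [nt U0]) ∨
    (X = nt U0 ∧ y = [nt U0] ∧ nt U ∉ pre ∧ nt M ∉ pre) ∨
    (X = nt U0 ∧ y = [nt U] ∧ nt U ∉ pre ∧ nt M ∉ pre) ∨
    (X = nt U ∧ y = [nt U, fb] ∧ nt U0 ∉ pre ∧ nt S ∉ pre) ∨
    (X = nt U ∧ y = [nt M, fb] ∧ nt U ∉ pre ∧ nt U0 ∉ pre ∧ nt S ∉ pre) ∨
    (X = nt M ∧ y = [nt M, fb] ∧ nt U0 ∉ pre ∧ nt S ∉ pre) ∨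
    (X = nt M ∧ y = [fa] ∧ nt U0 ∉ pre ∧ nt S ∉ pre) ∨ (X = fb ∧ y = [fb]) := by
  constructor
  · rintro ⟨U', W, h, -, hW⟩
    rcases PF_mem h with h | h | h | h | h | h | h | h | h <;> obtain ⟨h1, h2, -, h4⟩ := h
    · exact Or.inl ⟨h1, h2⟩
    · exact Or.inr (Or.inl ⟨h1, h2⟩)
    · exact Or.inr (Or.inr (Or.inl ⟨h1, h2, hW U (by rw [h4]; first | exact Or.inl rfl | exact Or.inr rfl | exact Or.inr (Or.inl rfl) | exact Or.inr (Or.inr rfl)), hW M (by rw [h4]; first | exact Or.inl rfl | exact Or.inr rfl | exact Or.inr (Or.inl rfl) | exact Or.inr (Or.inr rfl))⟩))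
    · exact Or.inr (Or.inr (Or.inr (Or.inl ⟨h1, h2, hW U (by rw [h4]; first | exact Or.inl rfl | exact Or.inr rfl | exact Or.inr (Or.inl rfl) | exact Or.inr (Or.inr rfl)),
        hW M (by rw [h4]; first | exact Or.inl rfl | exact Or.inr rfl | exact Or.inr (Or.inl rfl) | exact Or.inr (Or.inr rfl))⟩)))
    · exact Or.inr (Or.inr (Or.inr (Or.inr (Or.inl ⟨h1, h2, hW U0 (by rw [h4]; first | exact Or.inl rfl | exact Or.inr rfl | exact Or.inr (Or.inl rfl) | exact Or.inr (Or.inr rfl)),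
        hW S (by rw [h4]; first | exact Or.inl rfl | exact Or.inr rfl | exact Or.inr (Or.inl rfl) | exact Or.inr (Or.inr rfl))⟩))))
    · exact Or.inr (Or.inr (Or.inr (Or.inr (Or.inr (Or.inl ⟨h1, h2, hW U (by rw [h4]; first | exact Or.inl rfl | exact Or.inr rfl | exact Or.inr (Or.inl rfl) | exact Or.inr (Or.inr rfl)),
        hW U0 (by rw [h4]; first | exact Or.inl rfl | exact Or.inr rfl | exact Or.inr (Or.inl rfl) | exact Or.inr (Or.inr rfl)), hW S (by rw [h4]; first | exact Or.inl rfl | exact Or.inr rfl | exact Or.inr (Or.inl rfl) | exact Or.inr (Or.inr rfl))⟩)))))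
    · exact Or.inr (Or.inr (Or.inr (Or.inr (Or.inr (Or.inr (Or.inl ⟨h1, h2,
        hW U0 (by rw [h4]; first | exact Or.inl rfl | exact Or.inr rfl | exact Or.inr (Or.inl rfl) | exact Or.inr (Or.inr rfl)), hW S (by rw [h4]; first | exact Or.inl rfl | exact Or.inr rfl | exact Or.inr (Or.inl rfl) | exact Or.inr (Or.inr rfl))⟩))))))
    · exact Or.inr (Or.inr (Or.inr (Or.inr (Or.inr (Or.inr (Or.inr (Or.inl ⟨h1, h2,
        hW U0 (by rw [h4]; first | exact Or.inl rfl | exact Or.inr rfl | exact Or.inr (Or.inl rfl) | exact Or.inr (Or.inr rfl)), hW S (by rw [h4]; first | exact Or.inl rfl | exact Or.inr rfl | exact Or.inr (Or.inl rfl) | exact Or.inr (Or.inr rfl))⟩)))))))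
    · exact Or.inr (Or.inr (Or.inr (Or.inr (Or.inr (Or.inr (Or.inr (Or.inr ⟨h1, h2⟩)))))))
  · intro h
    rcases h with h | h | h | h | h | h | h | h | h
    · refine ⟨∅, ∅, ?_, fun B hB => absurd hB (Set.notMem_empty B), ?_⟩
      · rw [h.1, h.2]; exact Or.inl rfl
      · exact fun B hB => absurd hB (Set.notMem_empty B)
    · refine ⟨∅, ∅, ?_, fun B hB => absurd hB (Set.notMem_empty B), ?_⟩
      · rw [h.1, h.2]; exact Or.inr (Or.inl rfl)
      · exact fun B hB => absurd hB (Set.notMem_empty B)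
    · refine ⟨∅, {U, M}, ?_, fun B hB => absurd hB (Set.notMem_empty B), ?_⟩
      · rw [h.1, h.2.1]; exact Or.inr (Or.inr (Or.inl rfl))
      · intro B hB
        rcases hB with rfl | rfl
        · exact h.2.2.1
        · exact h.2.2.2
    · refine ⟨∅, {U, M}, ?_, fun B hB => absurd hB (Set.notMem_empty B), ?_⟩
      · rw [h.1, h.2.1]; exact Or.inr (Or.inr (Or.inr (Or.inl rfl)))
      · intro B hB
        rcases hB with rfl | rfl
        · exact h.2.2.1
        · exact h.2.2.2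
    · refine ⟨∅, {U0, S}, ?_, fun B hB => absurd hB (Set.notMem_empty B), ?_⟩
      · rw [h.1, h.2.1]; exact Or.inr (Or.inr (Or.inr (Or.inr (Or.inl rfl))))
      · intro B hB
        rcases hB with rfl | rfl
        · exact h.2.2.1
        · exact h.2.2.2
    · refine ⟨∅, {U, U0, S}, ?_, fun B hB => absurd hB (Set.notMem_empty B), ?_⟩
      · rw [h.1, h.2.1]; exact Or.inr (Or.inr (Or.inr (Or.inr (Or.inr (Or.inl rfl)))))
      · intro B hB
        rcases hB with rfl | rfl | rfl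
        · exact h.2.2.1
        · exact h.2.2.2.1
        · exact h.2.2.2.2
    · refine ⟨∅, {U0, S}, ?_, fun B hB => absurd hB (Set.notMem_empty B), ?_⟩
      · rw [h.1, h.2.1]; exact Or.inr (Or.inr (Or.inr (Or.inr (Or.inr (Or.inr (Or.inl rfl))))))
      · intro B hB
        rcases hB with rfl | rfl
        · exact h.2.2.1
        · exact h.2.2.2
    · refine ⟨∅, {U0, S}, ?_, fun B hB => absurd hB (Set.notMem_empty B), ?_⟩
      · rw [h.1, h.2.1]; exact Or.inr (Or.inr (Or.inr (Or.inr (Or.inr (Or.inr (Or.inr (Or.inl rfl)))))))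
      · intro B hB
        rcases hB with rfl | rfl
        · exact h.2.2.1
        · exact h.2.2.2
    · refine ⟨∅, ∅, ?_, fun B hB => absurd hB (Set.notMem_empty B), ?_⟩
      · rw [h.1, h.2]; exact Or.inr (Or.inr (Or.inr (Or.inr (Or.inr (Or.inr (Or.inr (Or.inr (rfl))))))))
      · exact fun B hB => absurd hB (Set.notMem_empty B)

end Pool.Agent.V11232.ET
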