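import Pool.Agent.V11232.ET.LF

namespace Pool.Agent.V11232.ET

open NF

/-- Parallel rewriting of the left forbidding grammar. -/
def Q (pre u v : List SF) : Prop := PS GF pre u v

theorem Q_nil (pre v : List SF) : Q pre [] v ↔ v = [] := Iff.rfl

theorem Q_cons (pre : List SF) (X : SF) (u v : List SF) : Q pre (X :: u) v ↔
    ∃ y v', AF pre X y ∧ v = y ++ v' ∧ Q (pre ++ [X]) u v' := Iff.rfl

theorem Q_append (pre u1 u2 v : List SF) : Q pre (u1 ++ u2) v ↔
    ∃ v1 v2, v = v1 ++ v2 ∧ Q pre u1 v1 ∧ Q (pre ++ u1) u2 v2 := ps_append (G := GF)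

theorem AF_b (pre y : List SF) : AF pre fb y ↔ y = [fb] := by
  rw [AF_iff]; simp [nt]

theorem AF_a (pre y : List SF) : ¬ AF pre fa y := by
  rw [AF_iff]; simp [nt]

theorem AF_S (pre y : List SF) : AF pre (nt S) y ↔ y = [nt S, nt U0] ∨ y = [nt U0] := by
  rw [AF_iff]; simp [nt]

theorem AF_U0 (pre y : List SF) : AF pre (nt U0) y ↔
    (nt U ∉ pre ∧ nt M ∉ pre) ∧ (y = [nt U0] ∨ y = [nt U]) := by
  rw [AF_iff]; simp only [nt]; simp; tauto

theorem AF_U (pre y : List SF) : AF pre (nt U) y ↔
    (nt U0 ∉ pre ∧ nt S ∉ pre) ∧ (y = [nt U, fb] ∨ (y = [nt M, fb] ∧ nt U ∉ pre)) := by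
  rw [AF_iff]; simp only [nt]; simp; tauto

theorem AF_M (pre y : List SF) : AF pre (nt M) y ↔
    (nt U0 ∉ pre ∧ nt S ∉ pre) ∧ (y = [nt M, fb] ∨ y = [fa]) := by
  rw [AF_iff]; simp only [nt]; simp; tauto

theorem Q_rep (i : ℕ) (pre v : List SF) :
    Q pre (List.replicate i fb) v ↔ v = List.replicate i fb :=
  ps_replicate (G := GF) (X := fb) (fun pre y => AF_b pre y) i

/-- A block. -/
def bl (i : ℕ) (x : NF) : List SF := nt x :: List.replicate i fb

/-- A form. -/
def form (i : ℕ) (xs : List NF) : List SF := xs.flatMap (bl i)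

theorem form_cons (i : ℕ) (x : NF) (xs : List NF) : form i (x :: xs) = bl i x ++ form i xs := by
  simp [form]

theorem form_append (i : ℕ) (xs ys : List NF) : form i (xs ++ ys) = form i xs ++ form i ys := by
  simp [form]

theorem Q_bl (pre v : List SF) (i : ℕ) (x : NF) (u : List SF) : Q pre (bl i x ++ u) v ↔
    ∃ y v', AF pre (nt x) y ∧ v = y ++ (List.replicate i fb ++ v') ∧ Q (pre ++ bl i x) u v' := by
  rw [Q_append]
  constructor
  · rintro ⟨v1, v2, h1, h2, h3⟩
    obtain ⟨y, v', g1, g2, g3⟩ := (Q_cons _ _ _ _).mp h2
    rw [Q_rep] at g3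
    refine ⟨y, v2, g1, ?_, h3⟩
    rw [h1, g2, g3]; simp
  · rintro ⟨y, v', h1, h2, h3⟩
    refine ⟨y ++ List.replicate i fb, v', by rw [h2]; simp, ?_, h3⟩
    exact (Q_cons _ _ _ _).mpr ⟨y, List.replicate i fb, h1, rfl, (Q_rep _ _ _).mpr rfl⟩

/-- Contexts without `U0` and `S`. -/
def clean (pre : List SF) : Prop := nt U0 ∉ pre ∧ nt S ∉ pre

theorem clean_bl {pre : List SF} (h : clean pre) (i : ℕ) {x : NF} (hx : x = U ∨ x = M) :
    clean (pre ++ bl i x) := by
  obtain ⟨h1, h2⟩ := h
  constructor
  · intro h
    rcases List.mem_append.mp h with h | h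
    · exact h1 h
    · rcases List.mem_cons.mp h with h | h
      · rcases hx with rfl | rfl <;> simp [nt] at h
      · have := List.eq_of_mem_replicate h; simp [nt] at this
  · intro h
    rcases List.mem_append.mp h with h | h
    · exact h2 h
    · rcases List.mem_cons.mp h with h | h
      · rcases hx with rfl | rfl <;> simp [nt] at h
      · have := List.eq_of_mem_replicate h; simp [nt] at this

theorem U_bl {pre : List SF} (h : nt U ∉ pre) (i : ℕ) : nt U ∉ pre ++ bl i M := by
  intro h'
  rcases List.mem_append.mp h' with h' | h'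
  · exact h h'
  · rcases List.mem_cons.mp h' with h' | h'
    · simp [nt] at h'
    · have := List.eq_of_mem_replicate h'; simp [nt] at this

theorem bl_succ (i : ℕ) (x : NF) : bl (i + 1) x = [nt x, fb] ++ List.replicate i fb := by
  simp [bl, List.replicate_succ]

theorem S1 (i q : ℕ) : ∀ (pre v : List SF), nt U ∈ pre → Q pre (form i (List.replicate q U)) v →
    v = form (i + 1) (List.replicate q U) := by
  induction q with
  | zero => intro pre v _ h; exact h
  | succ q ih =>
    intro pre v hU h
    rw [List.replicate_succ, form_cons, Q_bl] at h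
    obtain ⟨y, v', h1, h2, h3⟩ := h
    rw [AF_U] at h1
    have h4 := ih _ _ (List.mem_append_left _ hU) h3
    rcases h1.2 with h5 | ⟨-, h5⟩
    · rw [h2, h5, h4, List.replicate_succ, form_cons, bl_succ]; simp
    · exact absurd hU h5

theorem WD_map_succ (i p : ℕ) : ((WD i (p + 1)).map Sum.inr : List SF) =
    fa :: (List.replicate i fb ++ (WD i p).map Sum.inr) := by
  rw [WD_succ]; simp

theorem S2 (i p q : ℕ) : ∀ (pre v : List SF), nt U ∉ pre →
    Q pre (form i (List.replicate p M ++ List.replicate q U)) v →
    v = form (i + 1) (List.replicate p M ++ List.replicate q U) ∨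
    (∃ q', q = q' + 1 ∧ v = form (i + 1) (List.replicate (p + 1) M ++ List.replicate q' U)) ∨
    (q = 0 ∧ v = (WD i p).map Sum.inr) ∨ (fa ∈ v ∧ ∃ x, nt x ∈ v) := by
  induction p with
  | zero =>
    intro pre v hU h
    cases q with
    | zero => exact Or.inl h
    | succ q =>
      rw [List.replicate_zero, List.nil_append, List.replicate_succ, form_cons, Q_bl] at h
      obtain ⟨y, v', h1, h2, h3⟩ := h
      rw [AF_U] at h1
      have h4 := S1 i q _ _ (List.mem_append_right _ List.mem_cons_self) h3
      rcases h1.2 with h5 | ⟨h5, -⟩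
      · left
        rw [h2, h5, h4, List.replicate_zero, List.nil_append, List.replicate_succ, form_cons,
          bl_succ]; simp
      · right; left
        refine ⟨q, rfl, ?_⟩
        rw [h2, h5, h4]
        change _ = form (i + 1) (M :: List.replicate q U)
        rw [form_cons, bl_succ]; simp
  | succ p ih =>
    intro pre v hU h
    rw [List.replicate_succ, List.cons_append, form_cons, Q_bl] at h
    obtain ⟨y, v', h1, h2, h3⟩ := h
    rw [AF_M] at h1
    have h4 := ih _ _ (U_bl hU i) h3
    rcases h1.2 with rfl | rfl
    · -- `M → M b`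
      rcases h4 with h4 | ⟨q', h4, h5⟩ | ⟨h4, h5⟩ | ⟨h4, x, h5⟩
      · left
        have e : List.replicate (p + 1) M ++ List.replicate q U =
            M :: (List.replicate p M ++ List.replicate q U) := by
          rw [List.replicate_succ]; rfl
        rw [h2, h4, e, form_cons, bl_succ]; simp
      · right; left
        refine ⟨q', h4, ?_⟩
        have e : List.replicate (p + 1 + 1) M ++ List.replicate q' U =
            M :: (List.replicate (p + 1) M ++ List.replicate q' U) := by
          rw [List.replicate_succ]; rfl
        rw [h2, h5, e, form_cons, bl_succ]; simp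
      · cases p with
        | zero =>
          left
          rw [h2, h5, h4]
          simp [WD_zero, form, bl, List.replicate_succ]
        | succ p =>
          right; right; right
          rw [h2, h5, WD_map_succ]
          exact ⟨by simp, M, by simp⟩
      · right; right; right
        exact ⟨by rw [h2]; simp [h4], M, by rw [h2]; simp⟩
    · -- `M → a`
      rcases h4 with h4 | ⟨q', h4, h5⟩ | ⟨h4, h5⟩ | ⟨h4, x, h5⟩
      · cases hl : (List.replicate p M ++ List.replicate q U) with
        | nil =>
          right; right; left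
          rw [List.append_eq_nil_iff] at hl
          have hp : p = 0 := by simpa using hl.1
          have hq : q = 0 := by simpa using hl.2
          subst hp hq
          refine ⟨rfl, ?_⟩
          rw [h2, h4, WD_map_succ, WD_zero]; simp [form]
        | cons x xs =>
          right; right; right
          rw [hl, form_cons] at h4
          exact ⟨by rw [h2]; simp, x, by rw [h2, h4]; simp [bl]⟩
      · right; right; right
        rw [List.replicate_succ, List.cons_append, form_cons] at h5
        exact ⟨by rw [h2]; simp, M, by rw [h2, h5]; simp [bl]⟩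
      · right; right; left
        refine ⟨h4, ?_⟩
        rw [h2, h5, WD_map_succ]; simp
      · right; right; right
        exact ⟨by rw [h2]; simp, x, by rw [h2]; simp [h5]⟩

/-- Forms without successors. -/
def Dead (u : List SF) : Prop :=
  (∃ x, nt x ∈ u) ∧ ∃ p X q, u = p ++ X :: q ∧ ∀ y, ¬ AF p X y

theorem dead_no {u v : List SF} (h : ∃ p X q, u = p ++ X :: q ∧ ∀ y, ¬ AF p X y) :
    ¬ Q [] u v := by
  obtain ⟨p, X, q, e, h⟩ := h
  intro hQ
  rw [e, Q_append] at hQ
  obtain ⟨v1, v2, -, -, h3⟩ := hQ
  rw [Q_cons] at h3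
  obtain ⟨y, v', h4, -⟩ := h3
  exact h y (by simpa using h4)

theorem dead_a {u : List SF} (h1 : fa ∈ u) : ∃ p X q, u = p ++ X :: q ∧ ∀ y, ¬ AF p X y := by
  obtain ⟨s, t, h⟩ := List.append_of_mem h1
  exact ⟨s, fa, t, h, fun y => AF_a s y⟩

theorem dead_U {u p q : List SF} (h : u = p ++ nt U :: q) (hp : nt U0 ∈ p ∨ nt S ∈ p) :
    Dead u := by
  refine ⟨⟨U, by rw [h]; simp⟩, p, nt U, q, h, fun y hy => ?_⟩
  rw [AF_U] at hy
  rcases hp with hp | hp
  · exact hy.1.1 hp
  · exact hy.1.2 hp

theorem dead_U0 {u p q : List SF} (h : u = p ++ nt U0 :: q) (hp : nt U ∈ p) : Dead u := by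
  refine ⟨⟨U0, by rw [h]; simp⟩, p, nt U0, q, h, fun y hy => ?_⟩
  rw [AF_U0] at hy
  exact hy.1.1 hp

theorem R0 (j : ℕ) : ∀ (pre v : List SF), Q pre (List.replicate j (nt U0)) v →
    (∀ x ∈ v, x = nt U0 ∨ x = nt U) ∧ v.length = j := by
  induction j with
  | zero =>
    intro pre v h
    have : v = [] := h
    subst this; simp
  | succ j ih =>
    intro pre v h
    rw [List.replicate_succ, Q_cons] at h
    obtain ⟨y, v', h1, h2, h3⟩ := h
    rw [AF_U0] at h1
    obtain ⟨g1, g2⟩ := ih _ _ h3
    rcases h1.2 with rfl | rfl
    · rw [h2]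
      refine ⟨fun x hx => ?_, by simp [g2]⟩
      rcases List.mem_cons.mp hx with hx | hx
      · exact Or.inl hx
      · exact g1 x hx
    · rw [h2]
      refine ⟨fun x hx => ?_, by simp [g2]⟩
      rcases List.mem_cons.mp hx with hx | hx
      · exact Or.inr hx
      · exact g1 x hx

/-- The invariant. -/
inductive Inv : List SF → Prop
  | f1 (j : ℕ) : Inv (nt S :: List.replicate j (nt U0))
  | f2 (j : ℕ) : Inv (List.replicate (j + 1) (nt U0))
  | f3 (i p q : ℕ) : 1 ≤ p + q → p ≤ i → Inv (form i (List.replicate p M ++ List.replicate q U))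
  | f4 (i p : ℕ) : 1 ≤ p → p ≤ i → Inv ((WD i p).map Sum.inr)
  | dead (u : List SF) : Dead u → Inv u

theorem inv_step {u v : List SF} (h : Inv u) (hQ : Q [] u v) : Inv v := by
  cases h with
  | f1 j =>
    rw [Q_cons] at hQ
    obtain ⟨y, v', h1, h2, h3⟩ := hQ
    rw [AF_S] at h1
    obtain ⟨g1, g2⟩ := R0 j _ _ h3
    have hU0 : ∃ y1, y = y1 ++ [nt U0] := by
      rcases h1 with h1 | h1
      · exact ⟨[nt S], h1⟩
      · exact ⟨[], h1⟩
    by_cases hU : nt U ∈ v'
    · obtain ⟨s, t, hst⟩ := List.append_of_mem hU
      obtain ⟨y1, hy1⟩ := hU0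
      apply Inv.dead
      apply dead_U (p := y ++ s) (q := t)
      · rw [h2, hst]; simp
      · left; rw [hy1]; simp
    · have h5 : v' = List.replicate j (nt U0) := by
        rw [List.eq_replicate_iff]
        refine ⟨g2, fun x hx => ?_⟩
        rcases g1 x hx with h | h
        · exact h
        · rw [h] at hx; exact absurd hx hU
      rcases h1 with h1 | h1
      · rw [h2, h1, h5]
        have := Inv.f1 (j + 1)
        rw [List.replicate_succ] at this; exact this
      · rw [h2, h1, h5]
        have := Inv.f2 j
        rw [List.replicate_succ] at this; exact this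
  | f2 j =>
    obtain ⟨g1, g2⟩ := R0 (j + 1) _ _ hQ
    cases v with
    | nil => simp at g2
    | cons x v' =>
      rcases g1 x List.mem_cons_self with rfl | rfl
      · by_cases hU : nt U ∈ v'
        · obtain ⟨s, t, hst⟩ := List.append_of_mem hU
          apply Inv.dead
          exact dead_U (p := nt U0 :: s) (q := t) (by rw [hst]; simp) (Or.inl List.mem_cons_self)
        · have h5 : v' = List.replicate j (nt U0) := by
            rw [List.eq_replicate_iff]
            refine ⟨by simpa using g2, fun x hx => ?_⟩
            rcases g1 x (List.mem_cons_of_mem _ hx) with h | h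
            · exact h
            · rw [h] at hx; exact absurd hx hU
          rw [h5]
          have := Inv.f2 j
          rw [List.replicate_succ] at this; exact this
      · by_cases hU : nt U0 ∈ v'
        · obtain ⟨s, t, hst⟩ := List.append_of_mem hU
          apply Inv.dead
          exact dead_U0 (p := nt U :: s) (q := t) (by rw [hst]; simp) List.mem_cons_self
        · have h5 : v' = List.replicate j (nt U) := by
            rw [List.eq_replicate_iff]
            refine ⟨by simpa using g2, fun x hx => ?_⟩
            rcases g1 x (List.mem_cons_of_mem _ hx) with h | h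
            · rw [h] at hx; exact absurd hx hU
            · exact h
          rw [h5]
          have := Inv.f3 0 0 (j + 1) (by omega) le_rfl
          have e : form 0 (List.replicate 0 M ++ List.replicate (j + 1) U) =
              nt U :: List.replicate j (nt U) := by
            have : ∀ k, form 0 (List.replicate k U) = List.replicate k (nt U) := by
              intro k
              induction k with
              | zero => rfl
              | succ k ih => rw [List.replicate_succ, form_cons, ih, List.replicate_succ]; rfl
            rw [List.replicate_zero, List.nil_append, this, List.replicate_succ]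
          rw [e] at this; exact this
  | f3 i p q h1 h2 =>
    rcases S2 i p q [] v (by simp) hQ with h | ⟨q', hq, h⟩ | ⟨hq, h⟩ | ⟨h3, x, h4⟩
    · rw [h]; exact Inv.f3 (i + 1) p q h1 (by omega)
    · rw [h]; exact Inv.f3 (i + 1) (p + 1) q' (by omega) (by omega)
    · rw [h]; exact Inv.f4 i p (by omega) h2
    · exact Inv.dead _ ⟨⟨x, h4⟩, dead_a h3⟩
  | f4 i p h1 h2 =>
    exfalso
    refine dead_no (dead_a ?_) hQ
    obtain ⟨p', rfl⟩ : ∃ p', p = p' + 1 := ⟨p - 1, by omega⟩
    rw [WD_map_succ]; simp
  | dead u h => exact absurd hQ (dead_no h.2)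

theorem inv_reach {u : List SF} (h : Relation.ReflTransGen GF.Step [nt S] u) : Inv u := by
  induction h with
  | refl => exact Inv.f1 0
  | tail _ hs ih => exact inv_step ih ((step_iff GF _ _).mp hs).2

theorem inv_term {u : List SF} (h : Inv u) (w : List (Fin 2)) (hw : u = w.map Sum.inr) :
    w ∈ L1 := by
  have hno : ∀ x, nt x ∉ (w.map Sum.inr : List SF) := by
    intro x hx; simp [nt] at hx
  cases h with
  | f1 j => exact absurd (by rw [← hw]; exact List.mem_cons_self) (hno S)
  | f2 j => exact absurd (by rw [← hw, List.replicate_succ]; exact List.mem_cons_self) (hno U0)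
  | f3 i p q h1 h2 =>
    exfalso
    cases hl : (List.replicate p M ++ List.replicate q U) with
    | nil =>
      have := congrArg List.length hl
      simp at this; omega
    | cons x xs =>
      rw [hl, form_cons] at hw
      exact absurd (by rw [← hw]; simp [bl]) (hno x)
  | f4 i p h1 h2 =>
    refine ⟨i, p, h1, h2, ?_⟩
    have hinj : Function.Injective (Sum.inr : Fin 2 → SF) := Sum.inr_injective
    exact (List.map_injective_iff.mpr hinj hw).symm
  | dead u h =>
    obtain ⟨x, hx⟩ := h.1
    rw [hw] at hx
    exact absurd hx (hno x)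

/-! Completeness. -/

/-- The derivation relation. -/
def ST (u v : List SF) : Prop := GF.Step u v

theorem st {u v : List SF} (hu : u ≠ []) (h : Q [] u v) : ST u v :=
  (step_iff GF u v).mpr ⟨hu, h⟩

theorem QU0 (j : ℕ) (x : NF) (hx : x = U0 ∨ x = U) : ∀ pre : List SF, nt U ∉ pre → nt M ∉ pre →
    Q pre (List.replicate j (nt U0)) (List.replicate j (nt x)) := by
  induction j with
  | zero => intro pre _ _; rfl
  | succ j ih =>
    intro pre h1 h2
    rw [List.replicate_succ, List.replicate_succ, Q_cons]
    refine ⟨[nt x], _, (AF_U0 _ _).mpr ⟨⟨h1, h2⟩, ?_⟩, rfl, ih _ ?_ ?_⟩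
    · rcases hx with rfl | rfl
      · exact Or.inl rfl
      · exact Or.inr rfl
    · simp [h1, nt]
    · simp [h2, nt]

theorem QU (i q : ℕ) : ∀ pre : List SF, clean pre →
    Q pre (form i (List.replicate q U)) (form (i + 1) (List.replicate q U)) := by
  induction q with
  | zero => intro pre _; rfl
  | succ q ih =>
    intro pre h
    rw [List.replicate_succ, form_cons, Q_bl, form_cons]
    refine ⟨[nt U, fb], form (i + 1) (List.replicate q U), (AF_U _ _).mpr ⟨h, Or.inl rfl⟩, ?_,
      ih _ (clean_bl h i (Or.inl rfl))⟩
    rw [bl_succ]; simp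

theorem QM (i p : ℕ) (xs : List NF) (v : List SF) : ∀ pre : List SF, clean pre → nt U ∉ pre →
    (∀ pre', clean pre' → nt U ∉ pre' → Q pre' (form i xs) v) →
    Q pre (form i (List.replicate p M ++ xs)) (form (i + 1) (List.replicate p M) ++ v) := by
  induction p with
  | zero => intro pre h1 h2 h3; exact h3 pre h1 h2
  | succ p ih =>
    intro pre h1 h2 h3
    rw [List.replicate_succ, List.cons_append, form_cons, Q_bl, form_cons]
    refine ⟨[nt M, fb], form (i + 1) (List.replicate p M) ++ v,
      (AF_M _ _).mpr ⟨h1, Or.inl rfl⟩, ?_, ih _ (clean_bl h1 i (Or.inr rfl)) (U_bl h2 i) h3⟩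
    rw [bl_succ]; simp

theorem QF (i p : ℕ) : ∀ pre : List SF, clean pre →
    Q pre (form i (List.replicate p M)) ((WD i p).map Sum.inr) := by
  induction p with
  | zero => intro pre _; rfl
  | succ p ih =>
    intro pre h
    rw [List.replicate_succ, form_cons, Q_bl, WD_map_succ]
    refine ⟨[fa], (WD i p).map Sum.inr, (AF_M _ _).mpr ⟨h, Or.inr rfl⟩, by simp,
      ih _ (clean_bl h i (Or.inr rfl))⟩

theorem clean_nil : clean [] := ⟨by simp, by simp⟩

theorem form_ne (i : ℕ) {xs : List NF} (h : xs ≠ []) : form i xs ≠ [] := by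
  cases xs with
  | nil => exact absurd rfl h
  | cons x xs => rw [form_cons]; simp [bl]

theorem complete_L1 (n m : ℕ) (h1 : 1 ≤ m) (h2 : m ≤ n) :
    Relation.ReflTransGen ST [nt S] ((WD n m).map Sum.inr) := by
  -- phase one
  have s1 : ∀ j, Relation.ReflTransGen ST [nt S] (nt S :: List.replicate j (nt U0)) := by
    intro j
    induction j with
    | zero => exact Relation.ReflTransGen.refl
    | succ j ih =>
      refine ih.tail (st (by simp) ?_)
      rw [Q_cons]
      refine ⟨[nt S, nt U0], List.replicate j (nt U0), (AF_S _ _).mpr (Or.inl rfl), ?_,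
        QU0 j U0 (Or.inl rfl) _ (by simp [nt]) (by simp [nt])⟩
      rw [List.replicate_succ]; rfl
  have s2 : Relation.ReflTransGen ST [nt S] (List.replicate m (nt U0)) := by
    obtain ⟨j, rfl⟩ : ∃ j, m = j + 1 := ⟨m - 1, by omega⟩
    refine (s1 j).tail (st (by simp) ?_)
    rw [Q_cons]
    refine ⟨[nt U0], List.replicate j (nt U0), (AF_S _ _).mpr (Or.inr rfl), ?_,
      QU0 j U0 (Or.inl rfl) _ (by simp [nt]) (by simp [nt])⟩
    rw [List.replicate_succ]; rfl
  have e0 : ∀ k, form 0 (List.replicate k U) = List.replicate k (nt U) := by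
    intro k
    induction k with
    | zero => rfl
    | succ k ih => rw [List.replicate_succ, form_cons, ih, List.replicate_succ]; rfl
  have s3 : Relation.ReflTransGen ST [nt S] (form 0 (List.replicate m U)) := by
    refine s2.tail (st ?_ ?_)
    · intro h
      have := congrArg List.length h
      rw [List.length_replicate, List.length_nil] at this; omega
    · rw [e0]
      exact QU0 m U (Or.inr rfl) [] (by simp) (by simp)
  -- marking
  have s4 : ∀ t ≤ m, Relation.ReflTransGen ST [nt S]
      (form t (List.replicate t M ++ List.replicate (m - t) U)) := by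
    intro t
    induction t with
    | zero => intro _; simpa using s3
    | succ t ih =>
      intro ht
      refine (ih (by omega)).tail (st (form_ne _ ?_) ?_)
      · intro h
        have := congrArg List.length h
        simp at this; omega
      · obtain ⟨q, hq⟩ : ∃ q, m - t = q + 1 := ⟨m - t - 1, by omega⟩
        have hq' : m - (t + 1) = q := by omega
        rw [hq, hq']
        have h5 := QM t t (List.replicate (q + 1) U) (form (t + 1) (M :: List.replicate q U)) []
          clean_nil (by simp) (by
            intro pre' hc hU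
            rw [List.replicate_succ, form_cons, Q_bl, form_cons]
            refine ⟨[nt M, fb], form (t + 1) (List.replicate q U),
              (AF_U _ _).mpr ⟨hc, Or.inr ⟨rfl, hU⟩⟩, by rw [bl_succ]; simp,
              QU t q _ (clean_bl hc t (Or.inl rfl))⟩)
        rw [← form_append] at h5
        have e : List.replicate t M ++ M :: List.replicate q U =
            List.replicate (t + 1) M ++ List.replicate q U := by
          rw [List.replicate_succ']; simp
        rw [e] at h5
        exact h5
  have s5 : Relation.ReflTransGen ST [nt S] (form m (List.replicate m M)) := by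
    have := s4 m le_rfl
    simpa using this
  have s6 : ∀ k, Relation.ReflTransGen ST [nt S] (form (m + k) (List.replicate m M)) := by
    intro k
    induction k with
    | zero => exact s5
    | succ k ih =>
      refine ih.tail (st (form_ne _ ?_) ?_)
      · intro h
        have := congrArg List.length h
        simp at this; omega
      · have h5 := QM (m + k) m [] [] [] clean_nil (by simp) (fun _ _ _ => rfl)
        rw [List.append_nil, List.append_nil] at h5
        exact h5
  have s7 := s6 (n - m)
  rw [show m + (n - m) = n by omega] at s7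
  refine s7.tail (st (form_ne _ ?_) (QF n m [] clean_nil))
  intro h
  have := congrArg List.length h
  simp at this; omega

theorem GF_lang : GF.lang = L1 := by
  ext w
  constructor
  · intro h
    exact inv_term (inv_reach h) w rfl
  · rintro ⟨n, m, h1, h2, rfl⟩
    exact complete_L1 n m h1 h2

end Pool.Agent.V11232.ET
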