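import Pool.Agent.V11232.ET.PStep
import Pool.Agent.V11232.ET.Words

namespace Pool.Agent.V11232.ET

/-- Nonterminals of the left permitting grammar. -/
inductive NP : Type
  | S | U | N | M | E
  deriving DecidableEq, Fintype

open NP

/-- Symbols. -/
abbrev SP : Type := NP ⊕ Fin 2

/-- The terminal `a`. -/
abbrev pa : SP := Sum.inr 0
/-- The terminal `b`. -/
abbrev pb : SP := Sum.inr 1
/-- Nonterminal symbols. -/
abbrev np (x : NP) : SP := Sum.inl x

/-- The rules, with their permitting symbols. -/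
def RL : List (SP × List SP × Option NP) :=
  [(np S, [np S, np U], none), (np S, [np N], none), (np S, [pa], none),
   (np U, [np U], some S), (np U, [pa], some S),
   (np U, [np U, pb], some N), (np U, [np U, pb], some M),
   (np U, [np N, pb], some N), (np U, [np N, pb], some M),
   (np N, [np M, pb], none), (np N, [pa], none),
   (np M, [np M, pb], none), (np M, [pa], none),
   (np E, [np E], some S), (np E, [np E, pb], some N), (np E, [pa], none),
   (pb, [pb], none)]

/-- The left permitting grammar. -/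
def GP : LRC (Fin 2) where
  N := NP
  finN := inferInstance
  P := (fun q : SP × List SP × Option NP => (q.1, q.2.1, ({B | q.2.2 = some B} : Set NP),
    (∅ : Set NP))) '' {q | q ∈ RL}
  finP := (List.finite_toSet RL).image _
  ax := [np S, np E]
  ax_ne := by simp

theorem GP_permitting : GP.Permitting := by
  rintro X y U' W ⟨q, -, hq⟩
  exact (congrArg (fun t => t.2.2.2) hq).symm

/-- Applicability. -/
def AP (pre : List SP) (X : SP) (y : List SP) : Prop := App GP pre X y

theorem AP_iff (pre : List SP) (X : SP) (y : List SP) : AP pre X y ↔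
    ∃ o, (X, y, o) ∈ RL ∧ ∀ B, o = some B → np B ∈ pre := by
  constructor
  · rintro ⟨U', W, ⟨q, hq, he⟩, hU, -⟩
    obtain ⟨X', y', o⟩ := q
    have e1 : X' = X := congrArg (fun t => t.1) he
    have e2 : y' = y := congrArg (fun t => t.2.1) he
    have e3 : ({B | o = some B} : Set NP) = U' := congrArg (fun t => t.2.2.1) he
    subst e1 e2 e3
    exact ⟨o, hq, fun B hB => hU B hB⟩
  · rintro ⟨o, h1, h2⟩
    exact ⟨{B | o = some B}, ∅, ⟨(X, y, o), h1, rfl⟩, fun B hB => h2 B hB,
      fun B hB => absurd hB (Set.notMem_empty B)⟩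

/-- Parallel rewriting of the left permitting grammar. -/
def QP (pre u v : List SP) : Prop := PS GP pre u v

theorem QP_nil (pre v : List SP) : QP pre [] v ↔ v = [] := Iff.rfl

theorem QP_cons (pre : List SP) (X : SP) (u v : List SP) : QP pre (X :: u) v ↔
    ∃ y v', AP pre X y ∧ v = y ++ v' ∧ QP (pre ++ [X]) u v' := Iff.rfl

theorem QP_append (pre u1 u2 v : List SP) : QP pre (u1 ++ u2) v ↔
    ∃ v1 v2, v = v1 ++ v2 ∧ QP pre u1 v1 ∧ QP (pre ++ u1) u2 v2 := ps_append (G := GP)

theorem AP_b (pre y : List SP) : AP pre pb y ↔ y = [pb] := by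
  rw [AP_iff]; simp [RL, np]

theorem AP_a (pre y : List SP) : ¬ AP pre pa y := by
  rw [AP_iff]; simp [RL, np]

theorem AP_S (pre y : List SP) : AP pre (np S) y ↔
    y = [np S, np U] ∨ y = [np N] ∨ y = [pa] := by
  rw [AP_iff]
  constructor
  · rintro ⟨o, h, -⟩
    simp [RL, np] at h
    tauto
  · rintro (rfl | rfl | rfl) <;> exact ⟨none, by simp [RL], by simp⟩

theorem AP_N (pre y : List SP) : AP pre (np N) y ↔ y = [np M, pb] ∨ y = [pa] := by
  rw [AP_iff]
  constructor
  · rintro ⟨o, h, -⟩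
    simp [RL, np] at h
    tauto
  · rintro (rfl | rfl) <;> exact ⟨none, by simp [RL], by simp⟩

theorem AP_M (pre y : List SP) : AP pre (np M) y ↔ y = [np M, pb] ∨ y = [pa] := by
  rw [AP_iff]
  constructor
  · rintro ⟨o, h, -⟩
    simp [RL, np] at h
    tauto
  · rintro (rfl | rfl) <;> exact ⟨none, by simp [RL], by simp⟩

theorem AP_U (pre y : List SP) : AP pre (np U) y ↔
    (np S ∈ pre ∧ (y = [np U] ∨ y = [pa])) ∨
    ((np N ∈ pre ∨ np M ∈ pre) ∧ (y = [np U, pb] ∨ y = [np N, pb])) := by
  rw [AP_iff]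
  constructor
  · rintro ⟨o, h, h2⟩
    simp only [RL, List.mem_cons, Prod.mk.injEq, List.not_mem_nil, or_false] at h
    rcases h with h | h | h | h | h | h | h | h | h | h | h | h | h | h | h | h | h <;>
      obtain ⟨h3, h4, h5⟩ := h <;> first | (exfalso; simp at h3; done) | skip
    · exact Or.inl ⟨h2 S h5, Or.inl h4⟩
    · exact Or.inl ⟨h2 S h5, Or.inr h4⟩
    · exact Or.inr ⟨Or.inl (h2 N h5), Or.inl h4⟩
    · exact Or.inr ⟨Or.inr (h2 M h5), Or.inl h4⟩
    · exact Or.inr ⟨Or.inl (h2 N h5), Or.inr h4⟩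
    · exact Or.inr ⟨Or.inr (h2 M h5), Or.inr h4⟩
  · rintro (⟨h, h' | h'⟩ | ⟨h | h, h' | h'⟩) <;> subst h'
    · exact ⟨some S, by simp [RL], by rintro B hB; cases hB; exact h⟩
    · exact ⟨some S, by simp [RL], by rintro B hB; cases hB; exact h⟩
    · exact ⟨some N, by simp [RL], by rintro B hB; cases hB; exact h⟩
    · exact ⟨some N, by simp [RL], by rintro B hB; cases hB; exact h⟩
    · exact ⟨some M, by simp [RL], by rintro B hB; cases hB; exact h⟩
    · exact ⟨some M, by simp [RL], by rintro B hB; cases hB; exact h⟩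

theorem AP_E (pre y : List SP) : AP pre (np E) y ↔
    (np S ∈ pre ∧ y = [np E]) ∨ (np N ∈ pre ∧ y = [np E, pb]) ∨ y = [pa] := by
  rw [AP_iff]
  constructor
  · rintro ⟨o, h, h2⟩
    simp only [RL, List.mem_cons, Prod.mk.injEq, List.not_mem_nil, or_false] at h
    rcases h with h | h | h | h | h | h | h | h | h | h | h | h | h | h | h | h | h <;>
      obtain ⟨h3, h4, h5⟩ := h <;> first | (exfalso; simp at h3; done) | skip
    · exact Or.inl ⟨h2 S h5, h4⟩
    · exact Or.inr (Or.inl ⟨h2 N h5, h4⟩)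
    · exact Or.inr (Or.inr h4)
  · rintro (⟨h, h'⟩ | ⟨h, h'⟩ | h') <;> subst h'
    · exact ⟨some S, by simp [RL], by rintro B hB; cases hB; exact h⟩
    · exact ⟨some N, by simp [RL], by rintro B hB; cases hB; exact h⟩
    · exact ⟨none, by simp [RL], by simp⟩

end Pool.Agent.V11232.ET
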