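import Pool.Agent.V11232.ET.LP
import Pool.Agent.V11232.ET.Dick

namespace Pool.Agent.V11232.ET

open NP

theorem QP_rep (i : ℕ) (pre v : List SP) :
    QP pre (List.replicate i pb) v ↔ v = List.replicate i pb :=
  ps_replicate (G := GP) (X := pb) (fun pre y => AP_b pre y) i

/-- A block. -/
def blP (i : ℕ) (x : NP) : List SP := np x :: List.replicate i pb

/-- A form. -/
def formP (i : ℕ) (xs : List NP) : List SP := xs.flatMap (blP i)

theorem formP_cons (i : ℕ) (x : NP) (xs : List NP) :
    formP i (x :: xs) = blP i x ++ formP i xs := by
  simp [formP]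

theorem formP_append (i : ℕ) (xs ys : List NP) :
    formP i (xs ++ ys) = formP i xs ++ formP i ys := by
  simp [formP]

theorem QP_bl (pre v : List SP) (i : ℕ) (x : NP) (u : List SP) : QP pre (blP i x ++ u) v ↔
    ∃ y v', AP pre (np x) y ∧ v = y ++ (List.replicate i pb ++ v') ∧ QP (pre ++ blP i x) u v' := by
  rw [QP_append]
  constructor
  · rintro ⟨v1, v2, h1, h2, h3⟩
    obtain ⟨y, v', g1, g2, g3⟩ := (QP_cons _ _ _ _).mp h2
    rw [QP_rep] at g3
    refine ⟨y, v2, g1, ?_, h3⟩
    rw [h1, g2, g3]; simp
  · rintro ⟨y, v', h1, h2, h3⟩
    refine ⟨y ++ List.replicate i pb, v', by rw [h2]; simp, ?_, h3⟩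
    exact (QP_cons _ _ _ _).mpr ⟨y, List.replicate i pb, h1, rfl, (QP_rep _ _ _).mpr rfl⟩

theorem mem_blP {i : ℕ} {x y : NP} : np y ∈ blP i x ↔ y = x := by
  constructor
  · intro h
    rcases List.mem_cons.mp h with h | h
    · simpa using h
    · have := List.eq_of_mem_replicate h; simp at this
  · rintro rfl; exact List.mem_cons_self

theorem mem_formP {i : ℕ} {xs : List NP} {y : NP} : np y ∈ formP i xs ↔ y ∈ xs := by
  rw [formP, List.mem_flatMap]
  constructor
  · rintro ⟨x, hx, h⟩
    rw [mem_blP] at h
    rw [h]; exact hx
  · intro h; exact ⟨y, h, mem_blP.mpr rfl⟩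

/-- The result of one block. -/
def ob (i : ℕ) : Option NP → List SP
  | none => pa :: List.replicate i pb
  | some y => np y :: List.replicate (i + 1) pb

/-- What may happen with a block head. -/
def RelP (x : NP) (o : Option NP) : Prop :=
  (x = U ∧ (o = some U ∨ o = some N)) ∨ ((x = N ∨ x = M) ∧ (o = some M ∨ o = none))

theorem mid (i : ℕ) (w : List SP) : ∀ (xs : List NP) (pre v : List SP), np S ∉ pre →
    (∀ x ∈ xs, x = U ∨ x = N ∨ x = M) → QP pre (formP i xs ++ w) v →
    ∃ os, List.Forall₂ RelP xs os ∧ ∃ v', v = os.flatMap (ob i) ++ v' ∧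
      QP (pre ++ formP i xs) w v' := by
  intro xs
  induction xs with
  | nil =>
    intro pre v _ _ h
    exact ⟨[], List.Forall₂.nil, v, rfl, by simpa [formP] using h⟩
  | cons x xs ih =>
    intro pre v hS hx h
    rw [formP_cons, List.append_assoc, QP_bl] at h
    obtain ⟨y, v1, h1, h2, h3⟩ := h
    have hS2 : np S ∉ pre ++ blP i x := by
      intro h
      rcases List.mem_append.mp h with h | h
      · exact hS h
      · rw [mem_blP] at h
        rcases hx x List.mem_cons_self with h' | h' | h' <;> rw [h'] at h <;> cases h
    obtain ⟨os, g1, v', g2, g3⟩ := ih (pre ++ blP i x) v1 hS2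
      (fun z hz => hx z (List.mem_cons_of_mem _ hz)) h3
    rw [List.append_assoc, ← formP_cons] at g3
    have key : ∀ o, RelP x o → y ++ List.replicate i pb = ob i o →
        ∃ os, List.Forall₂ RelP (x :: xs) os ∧ ∃ v', v = os.flatMap (ob i) ++ v' ∧
          QP (pre ++ formP i (x :: xs)) w v' := by
      intro o ho hy
      refine ⟨o :: os, List.Forall₂.cons ho g1, v', ?_, g3⟩
      rw [h2, g2, List.flatMap_cons, ← hy]; simp
    rcases hx x List.mem_cons_self with rfl | rfl | rfl
    · rw [AP_U] at h1
      rcases h1 with ⟨h1, -⟩ | ⟨-, h1 | h1⟩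
      · exact absurd h1 hS
      · exact key (some U) (Or.inl ⟨rfl, Or.inl rfl⟩) (by rw [h1]; simp [ob, List.replicate_succ])
      · exact key (some N) (Or.inl ⟨rfl, Or.inr rfl⟩) (by rw [h1]; simp [ob, List.replicate_succ])
    · rw [AP_N] at h1
      rcases h1 with h1 | h1
      · exact key (some M) (Or.inr ⟨Or.inl rfl, Or.inl rfl⟩)
          (by rw [h1]; simp [ob, List.replicate_succ])
      · exact key none (Or.inr ⟨Or.inl rfl, Or.inr rfl⟩) (by rw [h1]; simp [ob])
    · rw [AP_M] at h1
      rcases h1 with h1 | h1
      · exact key (some M) (Or.inr ⟨Or.inr rfl, Or.inl rfl⟩)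
          (by rw [h1]; simp [ob, List.replicate_succ])
      · exact key none (Or.inr ⟨Or.inr rfl, Or.inr rfl⟩) (by rw [h1]; simp [ob])

theorem midU (w : List SP) : ∀ (k : ℕ) (pre v : List SP), np S ∈ pre → np N ∉ pre → np M ∉ pre →
    QP pre (List.replicate k (np U) ++ w) v →
    ∃ l v', (∀ x ∈ l, x = np U ∨ x = pa) ∧ l.length = k ∧ v = l ++ v' ∧
      QP (pre ++ List.replicate k (np U)) w v' := by
  intro k
  induction k with
  | zero =>
    intro pre v _ _ _ h
    exact ⟨[], v, by simp, rfl, rfl, by simpa using h⟩
  | succ k ih =>
    intro pre v hS hN hM h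
    rw [List.replicate_succ, List.cons_append, QP_cons] at h
    obtain ⟨y, v1, h1, h2, h3⟩ := h
    obtain ⟨l, v', g1, g2, g3, g4⟩ := ih (pre ++ [np U]) v1 (List.mem_append_left _ hS)
      (by simp [hN]) (by simp [hM]) h3
    rw [List.append_assoc, List.singleton_append, ← List.replicate_succ] at g4
    rw [AP_U] at h1
    rcases h1 with ⟨-, h1 | h1⟩ | ⟨h1 | h1, -⟩
    · exact ⟨np U :: l, v', by simpa using g1, by simp [g2], by rw [h2, h1, g3]; rfl, g4⟩
    · exact ⟨pa :: l, v', by simpa using g1, by simp [g2], by rw [h2, h1, g3]; rfl, g4⟩
    · exact absurd h1 hN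
    · exact absurd h1 hM

/-- The invariant. -/
inductive InvP : List SP → Prop
  | g1 (k : ℕ) : InvP (np S :: (List.replicate k (np U) ++ [np E]))
  | g2 (i : ℕ) (xs : List NP) : xs ≠ [] → (∀ x ∈ xs, x = U ∨ x = N ∨ x = M) →
      i ≤ xs.count M → InvP (formP i xs ++ blP i E)
  | g3 (n m : ℕ) : n < m → 2 ≤ m → InvP ((WD n m).map Sum.inr)
  | dead (u : List SP) (x : NP) : np x ∈ u → pa ∈ u → InvP u

theorem QP_dead {pre u v : List SP} (h : pa ∈ u) : ¬ QP pre u v := by
  intro hQ
  obtain ⟨s, t, rfl⟩ := List.append_of_mem h
  rw [QP_append] at hQ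
  obtain ⟨v1, v2, -, -, h3⟩ := hQ
  rw [QP_cons] at h3
  obtain ⟨y, v', h4, -⟩ := h3
  exact AP_a _ _ h4

theorem WD_map_succP (i p : ℕ) : ((WD i (p + 1)).map Sum.inr : List SP) =
    pa :: (List.replicate i pb ++ (WD i p).map Sum.inr) := by
  rw [WD_succ]; simp

theorem WD_snoc (i m : ℕ) : WD i (m + 1) = WD i m ++ (0 :: List.replicate i 1) := by
  induction m with
  | zero => simp [WD_succ, WD_zero]
  | succ m ih =>
    calc WD i (m + 1 + 1) = 0 :: (List.replicate i 1 ++ WD i (m + 1)) := WD_succ i (m + 1)
      _ = 0 :: (List.replicate i 1 ++ (WD i m ++ 0 :: List.replicate i 1)) := by rw [ih]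
      _ = (0 :: (List.replicate i 1 ++ WD i m)) ++ 0 :: List.replicate i 1 := by simp
      _ = WD i (m + 1) ++ 0 :: List.replicate i 1 := by rw [WD_succ]

theorem all_none (i : ℕ) (os : List (Option NP)) (h : ∀ o ∈ os, o = none) :
    os.flatMap (ob i) = (WD i os.length).map Sum.inr := by
  induction os with
  | nil => rfl
  | cons o os ih =>
    rw [List.flatMap_cons, ih fun o ho => h o (List.mem_cons_of_mem _ ho),
      h o List.mem_cons_self, List.length_cons, WD_map_succP]
    simp [ob]

theorem all_some (i : ℕ) (xs : List NP) :
    (xs.map some).flatMap (ob i) = formP (i + 1) xs := by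
  induction xs with
  | nil => rfl
  | cons x xs ih =>
    rw [List.map_cons, List.flatMap_cons, ih, formP_cons]
    simp [ob, blP]

theorem rel_some {xs xs' : List NP} (h : List.Forall₂ RelP xs (xs'.map some)) :
    xs.count M + xs.count N ≤ xs'.count M ∧ (∀ x ∈ xs', x = U ∨ x = N ∨ x = M) ∧
      xs'.length = xs.length := by
  induction xs generalizing xs' with
  | nil =>
    cases xs' with
    | nil => simp
    | cons x' xs' => cases h
  | cons x xs ih =>
    cases xs' with
    | nil => cases h
    | cons x' xs' =>
      rw [List.map_cons] at h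
      cases h with
      | cons h1 h2 =>
        obtain ⟨g1, g2, g3⟩ := ih h2
        refine ⟨?_, ?_, by simp [g3]⟩
        · rcases h1 with ⟨rfl, h1 | h1⟩ | ⟨rfl | rfl, h1 | h1⟩ <;>
            first | (cases h1; simp [List.count_cons]; omega) | cases h1
        · intro z hz
          rcases List.mem_cons.mp hz with rfl | hz
          · rcases h1 with ⟨-, h1 | h1⟩ | ⟨-, h1 | h1⟩ <;>
              first | (cases h1; simp) | cases h1
          · exact g2 z hz

theorem rel_none {xs : List NP} {os : List (Option NP)} (h : List.Forall₂ RelP xs os)
    (h2 : ∀ o ∈ os, o = none) : xs.count M ≤ xs.length ∧ os.length = xs.length :=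
  ⟨List.count_le_length, h.length_eq.symm⟩

theorem invP_step {u v : List SP} (h : InvP u) (hQ : QP [] u v) : InvP v := by
  cases h with
  | g1 k =>
    rw [QP_cons] at hQ
    obtain ⟨y, v1, h1, h2, h3⟩ := hQ
    obtain ⟨l, v2, g1, g2, g3, g4⟩ := midU [np E] k ([] ++ [np S]) v1 (by simp) (by simp)
      (by simp) h3
    rw [QP_cons] at g4
    obtain ⟨z, v3, e1, e2, e3⟩ := g4
    have e4 : v3 = [] := e3
    subst e4
    rw [AP_E] at e1
    have hz : z = [np E] ∨ z = [pa] := by
      rcases e1 with e1 | e1 | e1
      · exact Or.inl e1.2
      · exfalso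
        have := e1.1
        simp at this
      · exact Or.inr e1
    have hv : v = y ++ (l ++ z) := by rw [h2, g3, e2]; simp
    clear e1 h3
    have hl : pa ∉ l → l = List.replicate k (np U) := by
      intro h
      rw [List.eq_replicate_iff]
      refine ⟨g2, fun x hx => ?_⟩
      rcases g1 x hx with h' | h'
      · exact h'
      · rw [h'] at hx; exact absurd hx h
    have hl2 : (∀ x, np x ∉ l) → l = List.replicate k pa := by
      intro h
      rw [List.eq_replicate_iff]
      refine ⟨g2, fun x hx => ?_⟩
      rcases g1 x hx with h' | h'
      · rw [h'] at hx; exact absurd hx (h _)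
      · exact h'
    rw [AP_S] at h1
    rcases h1 with h1 | h1 | h1
    · by_cases hp : pa ∈ l ++ z
      · exact InvP.dead _ S (by rw [hv, h1]; simp) (by rw [hv]; exact List.mem_append_right _ hp)
      · have hp1 : pa ∉ l := fun h => hp (List.mem_append_left _ h)
        have hp2 : z = [np E] := by
          rcases hz with h | h
          · exact h
          · exact absurd (by rw [h]; simp) hp
        rw [hv, h1, hl hp1, hp2]
        have := InvP.g1 (k + 1)
        rw [List.replicate_succ] at this
        exact this
    · by_cases hp : pa ∈ l ++ z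
      · exact InvP.dead _ N (by rw [hv, h1]; simp) (by rw [hv]; exact List.mem_append_right _ hp)
      · have hp1 : pa ∉ l := fun h => hp (List.mem_append_left _ h)
        have hp2 : z = [np E] := by
          rcases hz with h | h
          · exact h
          · exact absurd (by rw [h]; simp) hp
        rw [hv, h1, hl hp1, hp2]
        have := InvP.g2 0 (N :: List.replicate k U) (by simp) (by
          intro x hx
          rcases List.mem_cons.mp hx with rfl | hx
          · simp
          · rw [List.eq_of_mem_replicate hx]; simp) (Nat.zero_le _)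
        have e : formP 0 (N :: List.replicate k U) = np N :: List.replicate k (np U) := by
          have : ∀ k, formP 0 (List.replicate k U) = List.replicate k (np U) := by
            intro k
            induction k with
            | zero => rfl
            | succ k ih => rw [List.replicate_succ, formP_cons, ih, List.replicate_succ]; rfl
          rw [formP_cons, this]; rfl
        rw [e] at this
        simpa [blP] using this
    · by_cases hp : ∃ x, np x ∈ l ++ z
      · obtain ⟨x, hx⟩ := hp
        exact InvP.dead _ x (by rw [hv]; exact List.mem_append_right _ hx) (by rw [hv, h1]; simp)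
      · push Not at hp
        have hp1 := hl2 fun x h => hp x (List.mem_append_left _ h)
        have hp2 : z = [pa] := by
          rcases hz with h | h
          · exact absurd (by rw [h]; simp) (hp E)
          · exact h
        rw [hv, h1, hp1, hp2]
        have := InvP.g3 0 (k + 2) (by omega) (by omega)
        have e : ∀ m, ((WD 0 m).map Sum.inr : List SP) = List.replicate m pa := by
          intro m
          induction m with
          | zero => rfl
          | succ m ih => rw [WD_map_succP, ih, List.replicate_succ]; simp
        rw [e] at this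
        have e2 : [pa] ++ (List.replicate k pa ++ [pa]) = List.replicate (k + 2) pa := by
          rw [← List.replicate_succ' (n := k), List.singleton_append, ← List.replicate_succ]
        rw [e2]; exact this
  | g2 i xs h1 h2 h3 =>
    obtain ⟨os, g1, v1, g2, g3⟩ := mid i (blP i E) xs [] v (by simp) h2 hQ
    have g3' : QP ([] ++ formP i xs) (blP i E ++ []) v1 := by rw [List.append_nil]; exact g3
    rw [QP_bl] at g3'
    obtain ⟨z, v3, e1, e2, e3⟩ := g3'
    have e4 : v3 = [] := e3
    subst e4
    rw [AP_E, List.nil_append, mem_formP, mem_formP] at e1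
    have hz : (N ∈ xs ∧ z = [np E, pb]) ∨ z = [pa] := by
      rcases e1 with e1 | e1 | e1
      · exfalso
        rcases h2 S e1.1 with h | h | h <;> cases h
      · exact Or.inl e1
      · exact Or.inr e1
    have hv : v = os.flatMap (ob i) ++ (z ++ List.replicate i pb) := by rw [g2, e2]; simp
    have hlen := g1.length_eq
    have hne : os ≠ [] := by
      rintro rfl
      exact h1 (List.length_eq_zero_iff.mp (by simpa using hlen))
    by_cases hn : none ∈ os
    · -- some letter `a`
      have hpa : pa ∈ v := by
        rw [hv]
        apply List.mem_append_left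
        rw [List.mem_flatMap]
        exact ⟨none, hn, List.mem_cons_self⟩
      by_cases ho : ∃ y, some y ∈ os
      · obtain ⟨y, hy⟩ := ho
        refine InvP.dead _ y ?_ hpa
        rw [hv]
        apply List.mem_append_left
        rw [List.mem_flatMap]
        exact ⟨some y, hy, List.mem_cons_self⟩
      · push Not at ho
        have hall : ∀ o ∈ os, o = none := by
          intro o h
          cases o with
          | none => rfl
          | some y => exact absurd h (ho y)
        rcases hz with ⟨-, hz⟩ | hz
        · refine InvP.dead _ E ?_ hpa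
          rw [hv, hz]; simp
        · rw [hv, hz, all_none i os hall, ← hlen]
          have hxl : 1 ≤ xs.length := by
            cases xs with
            | nil => exact absurd rfl h1
            | cons x xs => simp
          have hc : xs.count M ≤ xs.length := List.count_le_length
          have := InvP.g3 i (xs.length + 1) (by omega) (by omega)
          have e : ((WD i (xs.length + 1)).map Sum.inr : List SP) =
              (WD i xs.length).map Sum.inr ++ ([pa] ++ List.replicate i pb) := by
            rw [WD_snoc]; simp
          rw [e] at this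
          exact this
    · obtain ⟨xs', rfl⟩ : ∃ xs' : List NP, os = xs'.map some := by
        clear g1 g2 hv hlen hne
        induction os with
        | nil => exact ⟨[], rfl⟩
        | cons o os ih =>
          obtain ⟨xs', h⟩ := ih (fun h => hn (List.mem_cons_of_mem _ h))
          cases o with
          | none => exact absurd List.mem_cons_self hn
          | some y => exact ⟨y :: xs', by rw [h]; rfl⟩
      obtain ⟨r1, r2, r3⟩ := rel_some g1
      rw [all_some] at hv
      rcases hz with ⟨hN, hz⟩ | hz
      · have hcN : 1 ≤ xs.count N := List.count_pos_iff.mpr hN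
        have := InvP.g2 (i + 1) xs' (by rintro rfl; exact hne rfl) r2 (by omega)
        rw [hv, hz]
        have e : [np E, pb] ++ List.replicate i pb = blP (i + 1) E := by
          simp [blP, List.replicate_succ]
        rw [e]; exact this
      · cases xs' with
        | nil => exact absurd rfl hne
        | cons x' xs' =>
          refine InvP.dead _ x' ?_ ?_
          · rw [hv]
            exact List.mem_append_left _ (mem_formP.mpr List.mem_cons_self)
          · rw [hv, hz]; simp
  | g3 n m h1 h2 =>
    exfalso
    refine QP_dead ?_ hQ
    obtain ⟨m', rfl⟩ : ∃ m', m = m' + 1 := ⟨m - 1, by omega⟩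
    rw [WD_map_succP]; simp
  | dead u x h1 h2 => exact absurd hQ (QP_dead h2)

theorem invP_reach {u : List SP} (h : Relation.ReflTransGen GP.Step [np S, np E] u) : InvP u := by
  induction h with
  | refl => exact InvP.g1 0
  | tail _ hs ih => exact invP_step ih ((step_iff GP _ _).mp hs).2

theorem invP_term {u : List SP} (h : InvP u) (w : List (Fin 2)) (hw : u = w.map Sum.inr) :
    w ∈ L2 := by
  have hno : ∀ x, np x ∉ (w.map Sum.inr : List SP) := by
    intro x hx; simp at hx
  cases h with
  | g1 k => exact absurd (by rw [← hw]; exact List.mem_cons_self) (hno S)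
  | g2 i xs h1 h2 h3 =>
    exact absurd (by rw [← hw]; exact List.mem_append_right _ (mem_blP.mpr rfl)) (hno E)
  | g3 n m h1 h2 =>
    refine ⟨n, m, h1, h2, ?_⟩
    exact (List.map_injective_iff.mpr Sum.inr_injective hw).symm
  | dead u x h1 h2 => rw [hw] at h1; exact absurd h1 (hno x)

/-! Completeness. -/

/-- The derivation relation. -/
def STP (u v : List SP) : Prop := GP.Step u v

theorem stp {u v : List SP} (hu : u ≠ []) (h : QP [] u v) : STP u v :=
  (step_iff GP u v).mpr ⟨hu, h⟩

theorem QPU1 (k : ℕ) (x : List SP) (hx : x = [np U] ∨ x = [pa]) (w v : List SP) :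
    ∀ pre : List SP, np S ∈ pre → QP (pre ++ List.replicate k (np U)) w v →
    QP pre (List.replicate k (np U) ++ w) ((List.replicate k x).flatten ++ v) := by
  induction k with
  | zero => intro pre _ h; simpa using h
  | succ k ih =>
    intro pre h1 h2
    rw [List.replicate_succ, List.cons_append, QP_cons]
    refine ⟨x, (List.replicate k x).flatten ++ v, (AP_U _ _).mpr (Or.inl ⟨h1, hx⟩), ?_,
      ih _ (List.mem_append_left _ h1) ?_⟩
    · rw [List.replicate_succ, List.flatten_cons, List.append_assoc]
    · rw [List.append_assoc, List.singleton_append, ← List.replicate_succ]; exact h2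

/-- Steps in the second phase. -/
theorem QPmid (i : ℕ) (w v : List SP) : ∀ (xs ys : List NP) (pre : List SP),
    List.Forall₂ (fun x y => RelP x (some y)) xs ys →
    (∀ s t, xs = s ++ U :: t → np N ∈ pre ++ formP i s ∨ np M ∈ pre ++ formP i s) →
    QP (pre ++ formP i xs) w v → QP pre (formP i xs ++ w) (formP (i + 1) ys ++ v) := by
  intro xs
  induction xs with
  | nil =>
    intro ys pre h _ hw
    cases h
    simpa [formP] using hw
  | cons x xs ih =>
    intro ys pre h hU hw
    cases h with
    | cons h1 h2 =>
      rename_i y ys
      rw [formP_cons, List.append_assoc, QP_bl]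
      refine ⟨[np y, pb], formP (i + 1) ys ++ v, ?_, ?_, ?_⟩
      · rcases h1 with ⟨rfl, h1 | h1⟩ | ⟨rfl | rfl, h1 | h1⟩
        · cases h1
          refine (AP_U _ _).mpr (Or.inr ⟨?_, Or.inl rfl⟩)
          have := hU [] xs rfl
          simpa [formP] using this
        · cases h1
          refine (AP_U _ _).mpr (Or.inr ⟨?_, Or.inr rfl⟩)
          have := hU [] xs rfl
          simpa [formP] using this
        · cases h1; exact (AP_N _ _).mpr (Or.inl rfl)
        · cases h1
        · cases h1; exact (AP_M _ _).mpr (Or.inl rfl)
        · cases h1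
      · rw [formP_cons]; simp [blP, List.replicate_succ]
      · apply ih ys _ h2
        · intro s t hst
          have := hU (x :: s) t (by rw [hst]; rfl)
          rw [formP_cons] at this
          simpa using this
        · rw [List.append_assoc, ← formP_cons]; exact hw

/-- The last step. -/
theorem QPfin (i : ℕ) (w v : List SP) : ∀ (xs : List NP) (pre : List SP),
    (∀ x ∈ xs, x = N ∨ x = M) → QP (pre ++ formP i xs) w v →
    QP pre (formP i xs ++ w) ((WD i xs.length).map Sum.inr ++ v) := by
  intro xs
  induction xs with
  | nil => intro pre _ hw; simpa [formP, WD_zero] using hw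
  | cons x xs ih =>
    intro pre h hw
    rw [formP_cons, List.append_assoc, QP_bl, List.length_cons, WD_map_succP]
    refine ⟨[pa], (WD i xs.length).map Sum.inr ++ v, ?_, by simp, ?_⟩
    · rcases h x List.mem_cons_self with rfl | rfl
      · exact (AP_N _ _).mpr (Or.inr rfl)
      · exact (AP_M _ _).mpr (Or.inr rfl)
    · apply ih _ fun x hx => h x (List.mem_cons_of_mem _ hx)
      rw [List.append_assoc, ← formP_cons]; exact hw

theorem QPE (i : ℕ) (pre : List SP) (h : np N ∈ pre) : QP pre (blP i E) (blP (i + 1) E) := by
  have : QP pre (blP i E ++ []) (blP (i + 1) E) := by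
    rw [QP_bl]
    exact ⟨[np E, pb], [], (AP_E _ _).mpr (Or.inr (Or.inl ⟨h, rfl⟩)),
      by simp [blP, List.replicate_succ], rfl⟩
  simpa using this

theorem QPEfin (i : ℕ) (pre : List SP) : QP pre (blP i E) (pa :: List.replicate i pb) := by
  have : QP pre (blP i E ++ []) (pa :: List.replicate i pb) := by
    rw [QP_bl]
    exact ⟨[pa], [], (AP_E _ _).mpr (Or.inr (Or.inr rfl)), by simp, rfl⟩
  simpa using this

theorem complete_L2 (n m : ℕ) (h1 : n < m) (h2 : 2 ≤ m) :
    Relation.ReflTransGen STP [np S, np E] ((WD n m).map Sum.inr) := by
  obtain ⟨k, rfl⟩ : ∃ k, m = k + 2 := ⟨m - 2, by omega⟩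
  have s1 : ∀ j, Relation.ReflTransGen STP [np S, np E]
      (np S :: (List.replicate j (np U) ++ [np E])) := by
    intro j
    induction j with
    | zero => exact Relation.ReflTransGen.refl
    | succ j ih =>
      refine ih.tail (stp (by simp) ?_)
      rw [QP_cons]
      refine ⟨[np S, np U], (List.replicate j [np U]).flatten ++ [np E],
        (AP_S _ _).mpr (Or.inl rfl), ?_, ?_⟩
      · rw [List.replicate_succ]
        have : (List.replicate j [np U]).flatten = List.replicate j (np U) := by
          simp [List.flatten_replicate_singleton]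
        rw [this]; rfl
      · apply QPU1 j [np U] (Or.inl rfl)
        · simp
        · rw [QP_cons]
          exact ⟨[np E], [], (AP_E _ _).mpr (Or.inl ⟨by simp, rfl⟩), rfl, rfl⟩
  rcases Nat.eq_zero_or_pos n with rfl | hn
  · -- no letter `b`
    refine (s1 k).tail (stp (by simp) ?_)
    rw [QP_cons]
    refine ⟨[pa], (List.replicate k [pa]).flatten ++ [pa],
      (AP_S _ _).mpr (Or.inr (Or.inr rfl)), ?_, ?_⟩
    · have e : ∀ m, ((WD 0 m).map Sum.inr : List SP) = List.replicate m pa := by
        intro m
        induction m with
        | zero => rfl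
        | succ m ih => rw [WD_map_succP, ih, List.replicate_succ]; simp
      have : (List.replicate k [pa]).flatten = List.replicate k pa := by
        simp [List.flatten_replicate_singleton]
      rw [this, e, List.replicate_succ, List.replicate_succ', List.singleton_append]
    · apply QPU1 k [pa] (Or.inr rfl)
      · simp
      · rw [QP_cons]
        exact ⟨[pa], [], (AP_E _ _).mpr (Or.inr (Or.inr rfl)), rfl, rfl⟩
  · -- the second phase
    have e0 : ∀ k, formP 0 (List.replicate k U) = List.replicate k (np U) := by
      intro k
      induction k with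
      | zero => rfl
      | succ k ih => rw [List.replicate_succ, formP_cons, ih, List.replicate_succ]; rfl
    have s2 : Relation.ReflTransGen STP [np S, np E]
        (formP 0 (N :: List.replicate k U) ++ blP 0 E) := by
      refine (s1 k).tail (stp (by simp) ?_)
      rw [QP_cons]
      refine ⟨[np N], (List.replicate k [np U]).flatten ++ [np E],
        (AP_S _ _).mpr (Or.inr (Or.inl rfl)), ?_, ?_⟩
      · have : (List.replicate k [np U]).flatten = List.replicate k (np U) := by
          simp [List.flatten_replicate_singleton]
        rw [formP_cons, e0, this]; simp [blP]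
      · apply QPU1 k [np U] (Or.inl rfl)
        · simp
        · rw [QP_cons]
          exact ⟨[np E], [], (AP_E _ _).mpr (Or.inl ⟨by simp, rfl⟩), rfl, rfl⟩
    -- before the last growing step
    have s3 : ∀ t, t < n → Relation.ReflTransGen STP [np S, np E]
        (formP t (List.replicate t M ++ N :: List.replicate (k - t) U) ++ blP t E) := by
      intro t
      induction t with
      | zero => intro _; simpa using s2
      | succ t ih =>
        intro ht
        refine (ih (by omega)).tail (stp (by simp [formP, blP]) ?_)
        obtain ⟨q, hq⟩ : ∃ q, k - t = q + 1 := ⟨k - t - 1, by omega⟩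
        have hq' : k - (t + 1) = q := by omega
        rw [hq, hq']
        apply QPmid
        · have e : List.replicate (t + 1) M ++ N :: List.replicate q U =
              List.replicate t M ++ M :: N :: List.replicate q U := by
            rw [List.replicate_succ']; simp
          rw [e, List.replicate_succ (n := q)]
          refine List.rel_append ?_ (List.Forall₂.cons (Or.inr ⟨Or.inl rfl, Or.inl rfl⟩)
            (List.Forall₂.cons (Or.inl ⟨rfl, Or.inr rfl⟩) ?_))
          · rw [List.forall₂_iff_get]
            refine ⟨by simp, ?_⟩
            intro i h1 h2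
            simp only [List.get_eq_getElem, List.getElem_replicate]
            exact Or.inr ⟨Or.inr rfl, Or.inl rfl⟩
          · rw [List.forall₂_iff_get]
            refine ⟨by simp, ?_⟩
            intro i h1 h2
            simp only [List.get_eq_getElem, List.getElem_replicate]
            exact Or.inl ⟨rfl, Or.inl rfl⟩
        · intro s r hs
          rw [List.nil_append, mem_formP, mem_formP]
          exact NM_before hs
        · exact QPE t _ (by rw [List.nil_append, mem_formP]; simp)
    -- the last growing step
    have s4 : Relation.ReflTransGen STP [np S, np E]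
        (formP n (List.replicate n M ++ List.replicate (k + 1 - n) N) ++ blP n E) := by
      obtain ⟨t, rfl⟩ : ∃ t, n = t + 1 := ⟨n - 1, by omega⟩
      refine (s3 t (by omega)).tail (stp (by simp [formP, blP]) ?_)
      have hq' : k + 1 - (t + 1) = k - t := by omega
      rw [hq']
      apply QPmid
      · have e : List.replicate (t + 1) M ++ List.replicate (k - t) N =
            List.replicate t M ++ M :: List.replicate (k - t) N := by
          rw [List.replicate_succ']; simp
        rw [e]
        refine List.rel_append ?_ (List.Forall₂.cons (Or.inr ⟨Or.inl rfl, Or.inl rfl⟩) ?_)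
        · rw [List.forall₂_iff_get]
          refine ⟨by simp, ?_⟩
          intro i h1 h2
          simp only [List.get_eq_getElem, List.getElem_replicate]
          exact Or.inr ⟨Or.inr rfl, Or.inl rfl⟩
        · rw [List.forall₂_iff_get]
          refine ⟨by simp, ?_⟩
          intro i h1 h2
          simp only [List.get_eq_getElem, List.getElem_replicate]
          exact Or.inl ⟨rfl, Or.inr rfl⟩
      · intro s r hs
        rw [List.nil_append, mem_formP, mem_formP]
        exact NM_before hs
      · exact QPE t _ (by rw [List.nil_append, mem_formP]; simp)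
    refine s4.tail (stp (by simp [blP]) ?_)
    have h5 := QPfin n (blP n E) (pa :: List.replicate n pb)
      (List.replicate n M ++ List.replicate (k + 1 - n) N) [] (by
        intro x hx
        rcases List.mem_append.mp hx with h | h
        · exact Or.inr (List.eq_of_mem_replicate h)
        · exact Or.inl (List.eq_of_mem_replicate h)) (QPEfin n _)
    have e : (List.replicate n M ++ List.replicate (k + 1 - n) N).length = k + 1 := by
      simp; omega
    rw [e] at h5
    have e2 : ((WD n (k + 2)).map Sum.inr : List SP) =
        (WD n (k + 1)).map Sum.inr ++ (pa :: List.replicate n pb) := by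
      rw [WD_snoc]; simp
    rw [e2]
    exact h5
where
  NM_before {t q : ℕ} {s r : List NP}
      (hs : List.replicate t M ++ N :: List.replicate q U = s ++ U :: r) : N ∈ s ∨ M ∈ s := by
    cases t with
    | zero =>
      cases s with
      | nil => simp at hs
      | cons x s =>
        rw [List.replicate_zero, List.nil_append, List.cons_append] at hs
        have := (List.cons.inj hs).1
        left; rw [← this]; exact List.mem_cons_self
    | succ t =>
      cases s with
      | nil => rw [List.replicate_succ, List.cons_append, List.nil_append] at hs; simp at hs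
      | cons x s =>
        rw [List.replicate_succ, List.cons_append, List.cons_append] at hs
        have := (List.cons.inj hs).1
        right; rw [← this]; exact List.mem_cons_self

theorem GP_lang : GP.lang = L2 := by
  ext w
  constructor
  · intro h
    exact invP_term (invP_reach h) w rfl
  · rintro ⟨n, m, h1, h2, rfl⟩
    exact complete_L2 n m h1 h2

end Pool.Agent.V11232.ET
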