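import Pool.Agent.V11232.ET.Def

namespace Pool.Agent.V11232.ET

variable {T : Type}

/-- The rule `X → y` is applicable with the left context `pre`. -/
def App (G : LRC T) (pre : List (G.N ⊕ T)) (X : G.N ⊕ T) (y : List (G.N ⊕ T)) : Prop :=
  ∃ U W : Set G.N, (X, y, U, W) ∈ G.P ∧ (∀ B ∈ U, Sum.inl B ∈ pre) ∧ (∀ B ∈ W, Sum.inl B ∉ pre)

/-- Parallel rewriting, with a left context. -/
def PS (G : LRC T) : List (G.N ⊕ T) → List (G.N ⊕ T) → List (G.N ⊕ T) → Prop
  | _, [], v => v = []
  | pre, X :: u, v => ∃ y v', App G pre X y ∧ v = y ++ v' ∧ PS G (pre ++ [X]) u v'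

theorem ps_of (G : LRC T) (u : List (G.N ⊕ T)) : ∀ (pre : List (G.N ⊕ T))
    (ys : List (List (G.N ⊕ T))), ys.length = u.length →
    (∀ (i : ℕ) (X : G.N ⊕ T) (y : List (G.N ⊕ T)), u[i]? = some X → ys[i]? = some y →
      App G (pre ++ u.take i) X y) → PS G pre u ys.flatten := by
  induction u with
  | nil =>
    intro pre ys hl _
    have : ys = [] := List.length_eq_zero_iff.mp (by simpa using hl)
    rw [this]; rfl
  | cons X u ih =>
    intro pre ys hl h
    cases ys with
    | nil => simp at hl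
    | cons y ys =>
      have h0 := h 0 X y rfl rfl
      refine ⟨y, ys.flatten, by simpa using h0, by simp, ?_⟩
      apply ih (pre ++ [X]) ys (by simpa using hl)
      intro i Z z hZ hz
      have := h (i + 1) Z z (by simpa using hZ) (by simpa using hz)
      simpa using this

theorem of_ps (G : LRC T) (u : List (G.N ⊕ T)) : ∀ (pre v : List (G.N ⊕ T)), PS G pre u v →
    ∃ ys : List (List (G.N ⊕ T)), ys.length = u.length ∧
    (∀ (i : ℕ) (X : G.N ⊕ T) (y : List (G.N ⊕ T)), u[i]? = some X → ys[i]? = some y →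
      App G (pre ++ u.take i) X y) ∧ v = ys.flatten := by
  induction u with
  | nil =>
    intro pre v h
    refine ⟨[], rfl, ?_, h⟩
    intro i X y hX _; simp at hX
  | cons X u ih =>
    intro pre v h
    obtain ⟨y, v', h1, h2, h3⟩ := h
    obtain ⟨ys, g1, g2, g3⟩ := ih _ _ h3
    refine ⟨y :: ys, by simp [g1], ?_, by rw [h2, g3]; simp⟩
    intro i Z z hZ hz
    cases i with
    | zero =>
      have e1 : X = Z := by simpa using hZ
      have e2 : y = z := by simpa using hz
      subst e1 e2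
      simpa using h1
    | succ i =>
      have := g2 i Z z (by simpa using hZ) (by simpa using hz)
      simpa using this

theorem step_iff (G : LRC T) (u v : List (G.N ⊕ T)) : G.Step u v ↔ u ≠ [] ∧ PS G [] u v := by
  constructor
  · rintro ⟨h0, ys, h1, h2, rfl⟩
    refine ⟨h0, ps_of G u [] ys h1 ?_⟩
    intro i X y hX hy
    rw [List.nil_append]
    exact h2 i X y hX hy
  · rintro ⟨h0, h⟩
    obtain ⟨ys, h1, h2, h3⟩ := of_ps G u [] v h
    refine ⟨h0, ys, h1, ?_, h3⟩
    intro i X y hX hy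
    have := h2 i X y hX hy
    rw [List.nil_append] at this
    exact this

theorem ps_append {G : LRC T} {u1 u2 : List (G.N ⊕ T)} : ∀ {pre v : List (G.N ⊕ T)},
    PS G pre (u1 ++ u2) v ↔ ∃ v1 v2, v = v1 ++ v2 ∧ PS G pre u1 v1 ∧ PS G (pre ++ u1) u2 v2 := by
  induction u1 with
  | nil =>
    intro pre v
    constructor
    · intro h; exact ⟨[], v, rfl, rfl, by simpa using h⟩
    · rintro ⟨v1, v2, rfl, h1, h2⟩
      have : v1 = [] := h1
      subst this; simpa using h2
  | cons X u1 ih =>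
    intro pre v
    constructor
    · rintro ⟨y, v', h1, h2, h3⟩
      have h3' : PS G (pre ++ [X]) (u1 ++ u2) v' := h3
      obtain ⟨v1, v2, g1, g2, g3⟩ := ih.mp h3'
      exact ⟨y ++ v1, v2, by rw [h2, g1]; simp, ⟨y, v1, h1, rfl, g2⟩, by simpa using g3⟩
    · rintro ⟨v1, v2, h1, ⟨y, v', h2, h3, h4⟩, h5⟩
      refine ⟨y, v' ++ v2, h2, by rw [h1, h3]; simp, ?_⟩
      exact ih.mpr ⟨v', v2, rfl, h4, by simpa using h5⟩

theorem ps_single {G : LRC T} {pre v : List (G.N ⊕ T)} {X : G.N ⊕ T} :
    PS G pre [X] v ↔ App G pre X v := by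
  constructor
  · rintro ⟨y, v', h1, h2, h3⟩
    have : v' = [] := h3
    subst this
    rw [h2, List.append_nil]; exact h1
  · intro h; exact ⟨v, [], h, by simp, rfl⟩

theorem ps_replicate {G : LRC T} {X : G.N ⊕ T}
    (hX : ∀ pre y, App G pre X y ↔ y = [X]) (i : ℕ) : ∀ {pre v : List (G.N ⊕ T)},
    PS G pre (List.replicate i X) v ↔ v = List.replicate i X := by
  induction i with
  | zero => intro pre v; exact Iff.rfl
  | succ i ih =>
    intro pre v
    rw [List.replicate_succ]
    constructor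
    · rintro ⟨y, v', h1, h2, h3⟩
      rw [(hX _ _).mp h1] at h2
      rw [ih.mp h3] at h2
      exact h2
    · intro h
      exact ⟨[X], List.replicate i X, (hX _ _).mpr rfl, h, ih.mpr rfl⟩

end Pool.Agent.V11232.ET
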